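import Pool.Agent.P.MP_a5be26_lc.Card

section

/-!
Labelled conditions: the Kurepa forcing together with a labelling of nodes of the Baire space.
-/

open Set Function Cardinal Ordinal

namespace Pool.Agent.P.MP_a5be26_lc.Sep

/-- the domain of `s` is an initial segment -/
def Dn (s : Set (O × O)) : Prop := ∀ z ∈ s, ∀ β < z.1, ∃ γ, (β, γ) ∈ s

/-- `s` and `s'` agree on common arguments -/
def Cf (s s' : Set (O × O)) : Prop := ∀ z ∈ s, ∀ z' ∈ s', z.1 = z'.1 → z.2 = z'.2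

theorem Cf.mono {s s' u u' : Set (O × O)} (h : Cf s s') (h1 : u ⊆ s) (h2 : u' ⊆ s') : Cf u u' :=
  fun z hz z' hz' => h z (h1 hz) z' (h2 hz')

theorem Dn.cmp {s s' : Set (O × O)} (h : Dn s) (h' : Dn s') (hc : Cf s s') : s ⊆ s' ∨ s' ⊆ s := by
  by_contra hn
  rw [not_or, not_subset, not_subset] at hn
  obtain ⟨⟨z, a1, a2⟩, z', b1, b2⟩ := hn
  rcases lt_trichotomy z.1 z'.1 with c | c | c
  · obtain ⟨γ, d⟩ := h' z' b1 _ c
    have e : z.2 = γ := hc z a1 _ d rfl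
    exact a2 (by rw [← e] at d; exact d)
  · exact a2 ((Prod.ext c (hc z a1 z' b1 c) : z = z') ▸ b1)
  · obtain ⟨γ, d⟩ := h z a1 _ c
    have e : γ = z'.2 := hc _ d z' b1 rfl
    exact b2 (by rw [e] at d; exact d)

/-- a label: a node, a rank and a subset of the rank -/
@[ext] structure Lab : Type 1 where
  s : Set (O × O)
  r : O
  x : Set O
  x_sub : x ⊆ Iio r

instance : Preorder Lab where
  le u v := u.s ⊆ v.s ∧ u.r ≤ v.r ∧ u.x = v.x ∩ Iio u.r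
  le_refl u := ⟨Subset.rfl, le_rfl, (inter_eq_left.2 u.x_sub).symm⟩
  le_trans u v w h h' := ⟨h.1.trans h'.1, h.2.1.trans h'.2.1, by
    rw [h.2.2, h'.2.2, inter_assoc, inter_eq_right.2 (Iio_subset_Iio h.2.1)]⟩

theorem Lab.le_def {u v : Lab} : u ≤ v ↔ u.s ⊆ v.s ∧ u.r ≤ v.r ∧ u.x = v.x ∩ Iio u.r := Iff.rfl

/-- the least label -/
def root : Lab := ⟨∅, 0, ∅, empty_subset _⟩

theorem root_le (u : Lab) : root ≤ u := ⟨empty_subset _, zero_le, by simp [root]⟩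

theorem root_x (X : Set O) : root.x = X ∩ Iio root.r := by simp [root]

/-- uncountable cofinality -/
def Big (δ : O) : Prop := 0 < δ ∧ ∀ u : ℕ → O, (∀ n, u n < δ) → ∃ γ < δ, ∀ n, u n < γ

/-- the node of `u` is the union of the nodes of a sequence of labels of increasing rank -/
def Ch (L : Set Lab) (v : ℕ → Lab) (u : Lab) : Prop :=
  (∀ n, v n ∈ L) ∧ (∀ n, (v n).r < (v (n + 1)).r) ∧ u.s = ⋃ n, (v n).s

/-- fast chains with a limit of rank below `δ` are predicted -/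
def Star (t : Set (Set O)) (L : Set Lab) (δ : O) : Prop :=
  ∃ (g : O → O) (τ : Lab → Set O), (∀ β < δ, g β < δ) ∧ (∀ v, τ v ∈ t) ∧
    ∀ u ∈ L, u.r < δ → ∀ v, Ch L v u → (∀ n, g (v n).r < (v (n + 1)).r) →
      ∃ n, (v (n + 1)).x = τ (v n) ∩ Iio (v (n + 1)).r

/-- a good set of labels -/
structure Good (α : O) (t : Set (Set O)) (L : Set Lab) : Prop where
  sm : Sm L
  dn : ∀ u ∈ L, Dn u.s
  fn : ∀ u ∈ L, Cf u.s u.s
  bd : ∀ u ∈ L, ∀ z ∈ u.s, z.1 < u.r ∧ 0 < z.2 ∧ z.2 < u.r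
  rk : ∀ u ∈ L, u.r ≤ α
  xt : ∀ u ∈ L, u.x ∈ t
  cmp : ∀ u ∈ L, ∀ v ∈ L, u.s ⊆ v.s → u ≤ v ∧ (v.r ≤ u.r → u = v)
  down : ∀ v ∈ L, ∀ s, Dn s → s ⊆ v.s → ∃ u ∈ L, u.s = s
  root : root ∈ L
  cont : ∀ u ∈ L, ∀ v, Ch L v u → ∀ β < u.r, ∃ n, β < (v n).r
  star : ∀ δ ≤ α, Big δ → Star t L δ

/-- compatible labels are ordered by their ranks -/
theorem Good.le_of_rk {α : O} {t : Set (Set O)} {L : Set Lab} (h : Good α t L) {u v : Lab}
    (hu : u ∈ L) (hv : v ∈ L) (hc : Cf u.s v.s) (hr : u.r ≤ v.r) : u ≤ v := by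
  rcases (h.dn u hu).cmp (h.dn v hv) hc with c | c
  · exact (h.cmp u hu v hv c).1
  · exact ((h.cmp v hv u hu c).2 hr).ge

/-- `L'` end-extends `L` -/
def EE (α : O) (L L' : Set Lab) : Prop := ∀ u, u ∈ L ↔ u ∈ L' ∧ u.r ≤ α

theorem EE.sub {α : O} {L L' : Set Lab} (h : EE α L L') : L ⊆ L' := fun u hu => ((h u).1 hu).1

theorem EE.trans {α α' : O} {L L' L'' : Set Lab} (h : EE α L L') (h' : EE α' L' L'')
    (hα : α ≤ α') : EE α L L'' := fun u => by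
  rw [h u, h' u]
  exact ⟨fun a => ⟨a.1.1, a.2⟩, fun a => ⟨⟨a.1, a.2.trans hα⟩, a.2⟩⟩

theorem Star.ext {t t' : Set (Set O)} {L L' : Set Lab} {δ : O} (h : Star t L δ) (ht : t ⊆ t')
    (hL : ∀ u ∈ L', u.r < δ → u ∈ L) (hc : ∀ u ∈ L', ∀ v ∈ L', u.s ⊆ v.s → u.r ≤ v.r) :
    Star t' L' δ := by
  obtain ⟨g, τ, h1, h2, h3⟩ := h
  refine ⟨g, τ, h1, fun v => ht (h2 v), fun u hu hr v hv => h3 u (hL u hu hr) hr v
    ⟨fun n => hL _ (hv.1 n) ((hc _ (hv.1 n) u hu ?_).trans_lt hr), hv.2⟩⟩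
  rw [hv.2.2]
  exact subset_iUnion (fun n => (v n).s) n

/-- conditions -/
@[ext] structure Cond : Type 1 where
  c : Qc
  L : Set Lab
  y : O → Lab
  good : Good c.α c.t L
  y_L : ∀ ζ, y ζ ∈ L
  y_D : ∀ ζ ∈ c.D, (y ζ).r = c.α ∧ (y ζ).x = c.f ζ
  y_root : ∀ ζ ∉ c.D, y ζ = root

/-- the order -/
structure Cond.Le (p q : Cond) : Prop where
  c : p.c ≤ q.c
  L : EE q.c.α q.L p.L
  y : ∀ ζ ∈ q.c.D, q.y ζ ≤ p.y ζ

instance : Preorder Cond where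
  le := Cond.Le
  le_refl p := ⟨le_rfl, fun u => ⟨fun h => ⟨h, p.good.rk u h⟩, fun h => h.1⟩, fun _ _ => le_rfl⟩
  le_trans _ _ _ h h' := ⟨h.c.trans h'.c, h'.L.trans h.L h'.c.α,
    fun ζ hζ => (h'.y ζ hζ).trans (h.y ζ (h'.c.D hζ))⟩

theorem Cond.le_def {p q : Cond} : p ≤ q ↔ p.Le q := Iff.rfl

theorem Cond.Le.y' {p q : Cond} (h : p.Le q) (ζ : O) : q.y ζ ≤ p.y ζ := by
  by_cases hζ : ζ ∈ q.c.D
  · exact h.y ζ hζ
  · rw [q.y_root ζ hζ]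
    exact root_le _

theorem Cond.y_x (p : Cond) {c : Qc} (h : c ≤ p.c) (ζ : O) :
    (p.y ζ).x = c.f ζ ∩ Iio (p.y ζ).r := by
  by_cases hζ : ζ ∈ p.c.D
  · rw [(p.y_D ζ hζ).1, (p.y_D ζ hζ).2]
    exact h.f ζ hζ
  · rw [p.y_root ζ hζ]
    exact root_x _

theorem star_low (t : Set (Set O)) (ht : ∅ ∈ t) (L : Set Lab) {α δ : O} (hδ : α < δ)
    (h : ∀ u ∈ L, u.r ≤ α ∨ δ ≤ u.r) (hc : ∀ u ∈ L, ∀ v ∈ L, u.s ⊆ v.s → u.r ≤ v.r) :
    Star t L δ := by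
  refine ⟨fun _ => α, fun _ => ∅, fun _ _ => hδ, fun _ => ht, fun u hu hr v hv hg => ?_⟩
  have h1 : (v 1).r ≤ u.r := hc _ (hv.1 1) u hu (by
    rw [hv.2.2]; exact subset_iUnion (fun n => (v n).s) 1)
  rcases h _ (hv.1 1) with a | a
  · exact absurd (hg 0) (not_lt.2 a)
  · exact absurd (h1.trans_lt hr) (not_lt.2 a)

/-- the weakest condition -/
noncomputable def Cond.top : Cond where
  c := Qc.top
  L := {root}
  y _ := root
  good :=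
    { sm := .of_countable (countable_singleton _)
      dn := by rintro _ rfl z hz; exact hz.elim
      fn := by rintro _ rfl z hz; exact hz.elim
      bd := by rintro _ rfl z hz; exact hz.elim
      rk := by rintro _ rfl; exact le_rfl
      xt := by rintro _ rfl; rfl
      cmp := by rintro _ rfl _ rfl _; exact ⟨le_rfl, fun _ => rfl⟩
      down := by rintro _ rfl s _ hs; exact ⟨root, rfl, (subset_empty_iff.1 hs).symm⟩
      root := rfl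
      cont := by rintro _ rfl v _ β hβ; exact absurd hβ not_lt_zero
      star := fun δ h1 h2 => absurd h2.1 (not_lt.2 h1) }
  y_L _ := rfl
  y_D _ h := h.elim
  y_root _ _ := rfl

theorem Cond.le_top (p : Cond) : p ≤ Cond.top :=
  ⟨p.c.le_top, fun u => ⟨fun h => by rw [show u = root from h]; exact ⟨p.good.root, le_rfl⟩,
    fun h => ((p.good.cmp _ p.good.root u h.1 (empty_subset _)).2 h.2).symm⟩, fun _ h => h.elim⟩

open Classical in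
/-- restriction to the coordinates below `ξ` -/
noncomputable def Cond.res (p : Cond) (ξ : O) : Cond where
  c := p.c.res ξ
  L := p.L
  y ζ := if ζ < ξ then p.y ζ else root
  good := p.good
  y_L ζ := by
    split_ifs
    exacts [p.y_L ζ, p.good.root]
  y_D ζ h := by
    rw [if_pos (show ζ < ξ from h.2), p.c.res_f h.2]
    exact p.y_D ζ h.1
  y_root ζ h := by
    split_ifs with h'
    exacts [p.y_root ζ fun a => h ⟨a, h'⟩, rfl]

theorem Cond.res_y (p : Cond) {ξ ζ : O} (h : ζ < ξ) : (p.res ξ).y ζ = p.y ζ := if_pos h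

theorem Cond.le_res (p : Cond) (ξ : O) : p ≤ p.res ξ :=
  ⟨p.c.le_res ξ, (le_refl p).L, fun _ h => (p.res_y h.2).le⟩

theorem Cond.res_le {p q : Cond} {ξ : O} (h : p ≤ q) (hq : q.c.InX ξ) : p.res ξ ≤ q :=
  ⟨Qc.res_le h.c hq, h.L, fun ζ hζ => by rw [p.res_y (hq.2 ζ hζ)]; exact h.y ζ hζ⟩

theorem Cond.res_le_res {p q : Cond} {ξ : O} (h : p ≤ q.res ξ) : p.res ξ ≤ q.res ξ :=
  Cond.res_le h (q.c.inX_res ξ)

theorem Cond.res_mono {p q : Cond} (h : p ≤ q) (ξ : O) : p.res ξ ≤ q.res ξ :=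
  Cond.res_le_res (h.trans (q.le_res ξ))

/-- the branches named in `p` are separated in the longer condition `q` -/
def SepC (p q : Cond) : Prop := q ≤ p ∧ p.c.α < q.c.α ∧ InjOn q.c.f p.c.D

/-- `a` is a limit of the family `m` all of whose top labels are named -/
def TopL {ι : Type 1} (m : ι → Cond) (a : Cond) : Prop :=
  (∀ β < a.c.α, ∃ i, β < (m i).c.α) ∧
    ∀ u ∈ a.L, u.r = a.c.α → ∃ i, ∃ ζ ∈ (m i).c.D, u.x = a.c.f ζ

/-- a run of length `θ` below `x0` -/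
structure Run (x0 : Cond) (θ : O) (m n : O → Cond) : Prop where
  le0 : ∀ j < θ, m j ≤ x0
  sep : ∀ j < θ, SepC (m j) (n j)
  le : ∀ j < θ, ∀ i < j, m j ≤ n i
  top : ∀ j < θ, Order.IsSuccLimit j → TopL (fun i : Iio j => m i) (m j)

/-- the labels named along the sequence `u` have upper bounds in `a` -/
def Bs (a : Cond) (u : ℕ → Cond) : Prop :=
  ∀ ζ, ∃ b ∈ a.L, (∀ c ≤ a.c, b.x = c.f ζ ∩ Iio b.r) ∧ ∀ n, (u n).y ζ ≤ b

theorem Bs.mono {a a' : Cond} {u : ℕ → Cond} (h : Bs a u) (h' : a' ≤ a) : Bs a' u := fun ζ =>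
  let ⟨b, h1, h2, h3⟩ := h ζ
  ⟨b, h'.L.sub h1, fun c hc => h2 c (hc.trans h'.c), h3⟩

/-- data for one more limit label -/
structure Ex {ι : Type*} (g : ι → Cond) (δ ζ : O) (V : Set Lab) : Prop where
  D : ∃ i, ζ ∈ (g i).c.D
  L : ∀ v ∈ V, ∃ i, v ∈ (g i).L
  dir : ∀ v ∈ V, ∀ v' ∈ V, ∃ v'' ∈ V, v ≤ v'' ∧ v' ≤ v''
  cof : ∀ β < δ, ∃ v ∈ V, β < v.r
  x : ∀ v ∈ V, v.x = (⋃ i, (g i).c.f ζ) ∩ Iio v.r

/-- dense open sets indexed by a set of size at most continuum can be met -/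
def MeetS : Prop := ∀ (x0 : Cond) (α : Type 1) (S : Set α), Sm S → ∀ D : α → Cond → Prop,
  (∀ j ∈ S, ∀ x ≤ x0, ∃ y ≤ x, D j y) → (∀ j x y, y ≤ x → D j x → D j y) →
    ∃ y ≤ x0, ∀ j ∈ S, D j y

/-- runs of length the first uncountable ordinal and their limits -/
def RunS : Prop := ∀ (x0 : Cond) (St : Cond → Cond → Prop),
  (∀ a b b', b' ≤ b → St a b → St a b') → (∀ a ≤ x0, ∃ b ≤ a, St a b) →
    ∃ (m n : O → Cond) (a : Cond), Run x0 ω₁ m n ∧ (∀ j < ω₁, St (m j) (n j)) ∧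
      (∀ j < ω₁, a ≤ n j) ∧ ∀ s ∈ a.c.t, (∃ j < ω₁, s ⊆ Iio (m j).c.α) ∨
        ∃ j < ω₁, ∃ ζ ∈ (m j).c.D, s = a.c.f ζ

/-- transfinite dependent choice -/
theorem tdc {X : Type 1} [Nonempty X] (θ : O) (R : (j : O) → (Iio j → X) → X → Prop)
    (h : ∀ j < θ, ∀ g : O → X, (∀ i < j, R i (fun k => g k) (g i)) →
      ∃ x, R j (fun k => g k) x) : ∃ g : O → X, ∀ j < θ, R j (fun k => g k) (g j) := by
  let g : O → X := (wellFounded_lt (α := O)).fix fun j f =>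
    Classical.epsilon (R j fun k => f k.1 k.2)
  have e : ∀ j, g j = Classical.epsilon (R j fun k => g k) := fun j => WellFounded.fix_eq _ _ _
  refine ⟨g, fun j => ?_⟩
  induction j using WellFoundedLT.induction with
  | ind j ih =>
  intro hj
  rw [e j]
  exact Classical.epsilon_spec (h j hj g fun i hi => ih i hi (hi.trans hj))

end Pool.Agent.P.MP_a5be26_lc.Sep

end

section

/-!
One step extension of a good set of labels by new labels of a larger rank.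
-/

open Set Function Cardinal Ordinal

namespace Pool.Agent.P.MP_a5be26_lc.Sep

theorem Good.exists_len {α : O} {t : Set (Set O)} {L : Set Lab} (h : Good α t L) (b : Lab) :
    ∃ l : O, b ∈ L → l ≤ b.r ∧ ∀ β, (∃ γ, (β, γ) ∈ b.s) ↔ β < l := by
  refine ⟨sInf {β | ¬ ∃ γ, (β, γ) ∈ b.s}, fun hb => ?_⟩
  have h1 : b.r ∈ {β | ¬ ∃ γ, (β, γ) ∈ b.s} := by
    rintro ⟨γ, hγ⟩
    exact lt_irrefl _ (h.bd b hb _ hγ).1
  have h2 := csInf_mem (s := {β | ¬ ∃ γ, (β, γ) ∈ b.s}) ⟨_, h1⟩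
  refine ⟨csInf_le' h1, fun β => ⟨?_, fun hβ => ?_⟩⟩
  · rintro ⟨γ, hγ⟩
    by_contra hn
    rcases (not_lt.1 hn).lt_or_eq with c | c
    · exact h2 (h.dn b hb _ hγ _ c)
    · exact h2 ⟨γ, by rw [c]; exact hγ⟩
  · by_contra hn
    exact absurd (csInf_le' (s := {β | ¬ ∃ γ, (β, γ) ∈ b.s}) hn) (not_le.2 hβ)

theorem good_ext {α α' : O} {t t' : Set (Set O)} {L : Set Lab} (h : Good α t L) (hα : α < α')
    (ht : t ⊆ t') (ht' : ∀ s ∈ t', s ⊆ Iio α') (h0 : ∅ ∈ t') (E : Set (Lab × O × Set O)) (hE : Sm E)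
    (hE' : ∀ e ∈ E, e.1 ∈ L ∧ α ≤ e.2.1 ∧ 0 < e.2.1 ∧ e.2.1 < α' ∧ e.2.2 ∈ t' ∧
      e.1.x = e.2.2 ∩ Iio e.1.r)
    (hk : ∀ e ∈ E, ∀ e' ∈ E, e.2.1 = e'.2.1 → e.2.2 = e'.2.2) :
    ∃ (L' : Set Lab) (N : Lab × O × Set O → Lab), Good α' t' L' ∧ EE α L L' ∧
      ∀ e ∈ E, N e ∈ L' ∧ e.1 ≤ N e ∧ (N e).r = α' ∧ (N e).x = e.2.2 := by
  choose len hlen using h.exists_len
  let N : Lab × O × Set O → Lab := fun e =>
    ⟨insert (len e.1, e.2.1) e.1.s, α', e.2.2 ∩ Iio α', inter_subset_right⟩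
  have Ns : ∀ e, (N e).s = insert (len e.1, e.2.1) e.1.s := fun _ => rfl
  have Nr : ∀ e, (N e).r = α' := fun _ => rfl
  have Nx : ∀ e ∈ E, (N e).x = e.2.2 := fun e he => inter_eq_left.2 (ht' _ (hE' e he).2.2.2.2.1)
  have lt_len : ∀ u ∈ L, ∀ z ∈ u.s, z.1 < len u := fun u hu z hz =>
    ((hlen u hu).2 z.1).1 ⟨z.2, hz⟩
  have nw : ∀ e ∈ E, ∀ u ∈ L, (len e.1, e.2.1) ∉ u.s := fun e he u hu hz =>
    absurd ((h.bd u hu _ hz).2.2.trans_le (h.rk u hu)) (not_lt.2 (hE' e he).2.1)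
  have sub_old : ∀ e ∈ E, ∀ u ∈ L, u.s ⊆ (N e).s → u.s ⊆ e.1.s := fun e he u hu hs z hz => by
    rcases hs hz with c | c
    · exact absurd (c ▸ hz) (nw e he u hu)
    · exact c
  have le_N : ∀ e ∈ E, e.1 ≤ N e := fun e he => by
    have a := hE' e he
    refine ⟨subset_insert _ _, (h.rk _ a.1).trans hα.le, ?_⟩
    rw [Nx e he]
    exact a.2.2.2.2.2
  have N_inj : ∀ e ∈ E, ∀ e' ∈ E, (N e).s ⊆ (N e').s → N e = N e' := fun e he e' he' hs => by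
    have a := (hE' e he).1
    have a' := (hE' e' he').1
    have b : (len e.1, e.2.1) = (len e'.1, e'.2.1) := by
      rcases hs (mem_insert _ _) with c | c
      · exact c
      · exact absurd c (nw e he _ a')
    have b1 : len e.1 = len e'.1 := congrArg Prod.fst b
    have b2 : e.2.1 = e'.2.1 := congrArg Prod.snd b
    have c1 : e.1.s ⊆ e'.1.s := sub_old e' he' _ a ((subset_insert _ _).trans hs)
    have c2 : e'.1.s ⊆ e.1.s := fun z hz => by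
      obtain ⟨γ, hγ⟩ := ((hlen _ a).2 z.1).2 (b1 ▸ lt_len _ a' z hz)
      have d : z.2 = γ := h.fn _ a' z hz _ (c1 hγ) rfl
      rw [← d] at hγ
      exact hγ
    refine Lab.ext ?_ rfl ?_
    · rw [Ns, Ns, b, c1.antisymm c2]
    · rw [Nx e he, Nx e' he', hk e he e' he' b2]
  have old : ∀ u ∈ L ∪ N '' E, u.r < α' → u ∈ L := by
    rintro u (hu | ⟨e, _, rfl⟩) hr
    · exact hu
    · exact absurd hr (lt_irrefl _)
  have hrk : ∀ u ∈ L ∪ N '' E, u.r ≤ α' := by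
    rintro u (hu | ⟨e, _, rfl⟩)
    · exact (h.rk u hu).trans hα.le
    · exact le_rfl
  have hcmp : ∀ u ∈ L ∪ N '' E, ∀ v ∈ L ∪ N '' E, u.s ⊆ v.s → u ≤ v ∧ (v.r ≤ u.r → u = v) := by
    rintro u (hu | ⟨e, he, rfl⟩) v (hv | ⟨e', he', rfl⟩) hs
    · exact h.cmp u hu v hv hs
    · exact ⟨(h.cmp u hu _ (hE' e' he').1 (sub_old e' he' u hu hs)).1.trans (le_N e' he'),
        fun c => absurd (c.trans (h.rk u hu)) (not_le.2 hα)⟩
    · exact absurd (hs (mem_insert _ _)) (nw e he v hv)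
    · have := N_inj e he e' he' hs
      exact ⟨this.le, fun _ => this⟩
  have hc : ∀ u ∈ L ∪ N '' E, ∀ v ∈ L ∪ N '' E, u.s ⊆ v.s → u.r ≤ v.r :=
    fun u hu v hv hs => (hcmp u hu v hv hs).1.2.1
  refine ⟨L ∪ N '' E, N, ⟨h.sm.union (hE.image N), ?_, ?_, ?_, hrk, ?_, hcmp, ?_, Or.inl h.root,
    ?_, ?_⟩, fun u => ⟨fun hu => ⟨Or.inl hu, h.rk u hu⟩, fun hu => old u hu.1 (hu.2.trans_lt hα)⟩,
    fun e he => ⟨Or.inr ⟨e, he, rfl⟩, le_N e he, rfl, Nx e he⟩⟩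
  · rintro u (hu | ⟨e, he, rfl⟩)
    · exact h.dn u hu
    · have a := (hE' e he).1
      rintro z (rfl | hz) β hβ
      · obtain ⟨γ, hγ⟩ := ((hlen _ a).2 β).2 hβ
        exact ⟨γ, Or.inr hγ⟩
      · obtain ⟨γ, hγ⟩ := h.dn _ a z hz β hβ
        exact ⟨γ, Or.inr hγ⟩
  · rintro u (hu | ⟨e, he, rfl⟩)
    · exact h.fn u hu
    · have a := (hE' e he).1
      rintro z (rfl | hz) z' (rfl | hz') c
      · rfl
      · exact absurd (lt_len _ a z' hz') (by rw [← c]; exact lt_irrefl _)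
      · exact absurd (lt_len _ a z hz) (by rw [c]; exact lt_irrefl _)
      · exact h.fn _ a z hz z' hz' c
  · rintro u (hu | ⟨e, he, rfl⟩)
    · exact h.bd u hu
    · have a := hE' e he
      have r : e.1.r < α' := (h.rk _ a.1).trans_lt hα
      rintro z (rfl | hz)
      · exact ⟨(hlen _ a.1).1.trans_lt r, a.2.2.1, a.2.2.2.1⟩
      · have b := h.bd _ a.1 z hz
        exact ⟨b.1.trans r, b.2.1, b.2.2.trans r⟩
  · rintro u (hu | ⟨e, he, rfl⟩)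
    · exact ht (h.xt u hu)
    · rw [Nx e he]
      exact (hE' e he).2.2.2.2.1
  · rintro v (hv | ⟨e, he, rfl⟩) s hs hsv
    · obtain ⟨u, a, b⟩ := h.down v hv s hs hsv
      exact ⟨u, Or.inl a, b⟩
    · have a := (hE' e he).1
      by_cases c : (len e.1, e.2.1) ∈ s
      · refine ⟨N e, Or.inr ⟨e, he, rfl⟩, Subset.antisymm ?_ hsv⟩
        rintro z (rfl | hz)
        · exact c
        · obtain ⟨γ, hγ⟩ := hs _ c z.1 (lt_len _ a z hz)
          rcases hsv hγ with d | d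
          · exact absurd (lt_len _ a z hz)
              (by rw [show z.1 = len e.1 from congrArg Prod.fst d]; exact lt_irrefl _)
          · have d' : z.2 = γ := h.fn _ a z hz _ d rfl
            rw [← d'] at hγ
            exact hγ
      · obtain ⟨u, b, b'⟩ := h.down _ a s hs fun z hz => by
          rcases hsv hz with d | d
          · exact absurd (d ▸ hz) c
          · exact d
        exact ⟨u, Or.inl b, b'⟩
  · intro u hu v hv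
    have ho : ∀ n, v n ∈ L := fun n => old _ (hv.1 n) ((hv.2.1 n).trans_le (hrk _ (hv.1 (n + 1))))
    rcases hu with hu | ⟨e, he, rfl⟩
    · exact h.cont u hu v ⟨ho, hv.2⟩
    · have c : (len e.1, e.2.1) ∈ (N e).s := mem_insert _ _
      rw [hv.2.2] at c
      obtain ⟨n, hn⟩ := mem_iUnion.1 c
      exact absurd hn (nw e he _ (ho n))
  · intro δ hδ hB
    rcases le_or_gt δ α with c | c
    · exact (h.star δ c hB).ext ht (fun u hu hr => old u hu (hr.trans_le hδ)) hc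
    · refine star_low t' h0 _ c ?_ hc
      rintro u (hu | ⟨e, _, rfl⟩)
      · exact Or.inl (h.rk u hu)
      · exact Or.inr hδ

end Pool.Agent.P.MP_a5be26_lc.Sep

end

section

/-!
One step extensions of labelled conditions.
-/

open Set Function Cardinal Ordinal

namespace Pool.Agent.P.MP_a5be26_lc.Sep

/-- a longer condition with room for fresh values -/
theorem qc_room (c : Qc) : ∃ c' : Qc, c' ≤ c ∧ c'.D = c.D ∧ c'.f = c.f ∧ c.α < c'.α ∧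
    ∃ k : O → O, InjOn k c.D ∧ ∀ ζ ∈ c.D, c.α < k ζ ∧ k ζ < c'.α := by
  obtain ⟨h, hh⟩ := c.D_sm
  obtain ⟨e, he⟩ := sm_X.enum ⟨∅, trivial⟩
  choose i hi using fun x => he x trivial
  have hk : c.α + 1 + (𝔠 : Cardinal.{0}).ord < kk :=
    Ordinal.isPrincipal_add_ord (aleph0_le_continuum.trans (Order.le_succ _))
      (kk_succ c.α_lt) cord_lt_kk
  have h1 : ∀ x : O, c.α < c.α + 1 + x := fun x =>
    (Order.lt_add_one_iff.2 le_rfl).trans_le le_self_add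
  refine ⟨{ c with
      α := c.α + 1 + (𝔠 : Cardinal.{0}).ord
      α_lt := hk
      t_sub := fun s hs => (c.t_sub s hs).trans (Iio_subset_Iio (h1 _).le) },
    ⟨Subset.rfl, (h1 _).le, (le_refl c).t, Subset.rfl, (le_refl c).f⟩, rfl, rfl, h1 _,
    fun ζ => c.α + 1 + i (h ζ), fun ζ hζ ζ' hζ' e' => hh hζ hζ' ?_, fun ζ _ =>
      ⟨h1 _, add_lt_add_right (hi _).1 _⟩⟩
  rw [← (hi (h ζ)).2, ← (hi (h ζ')).2, add_left_cancel e']

theorem jump2 (p : Cond) {c : Qc} (hc : c ≤ p.c) (b : Bool → O → Lab)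
    (hb : ∀ i ζ, b i ζ ∈ p.L ∧ (b i ζ).x = c.f ζ ∩ Iio (b i ζ).r) :
    ∃ r : Bool → Cond, (∀ i j, (r i).c = (r j).c ∧ (r i).L = (r j).L) ∧
      (∀ i, (r i).c ≤ c ∧ (r i).c.f = c.f ∧ c.α < (r i).c.α ∧ EE p.c.α p.L (r i).L ∧
        ∀ ζ ∈ c.D, b i ζ ≤ (r i).y ζ) ∧
      ∀ i j ζ, b i ζ = b j ζ → (r i).y ζ = (r j).y ζ := by
  classical
  obtain ⟨c', a1, a2, a3, a4, k, a5, a6⟩ := qc_room c
  obtain ⟨L', N, b1, b2, b3⟩ := good_ext p.good (hc.α.trans_lt a4) (a1.trans hc).t_sub c'.t_sub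
    c'.t_emp ((fun z : Bool × O => (b z.1 z.2, k z.2, c.f z.2)) '' (Set.univ ×ˢ c.D))
    (((Sm.of_countable countable_univ).prod c.D_sm).image _)
    (by
      rintro _ ⟨z, hz, rfl⟩
      exact ⟨(hb _ _).1, hc.α.trans (a6 _ hz.2).1.le, zero_le.trans_lt (a6 _ hz.2).1,
        (a6 _ hz.2).2, a1.t_sub (c.f_t _), (hb _ _).2⟩)
    (by
      rintro _ ⟨z, hz, rfl⟩ _ ⟨z', hz', rfl⟩ e
      exact congrArg c.f (a5 hz.2 hz'.2 e))
  have b4 := fun i ζ (h : ζ ∈ c.D) => b3 _ ⟨(i, ζ), ⟨trivial, h⟩, rfl⟩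
  refine ⟨fun i => ⟨c', L', fun ζ => if ζ ∈ c.D then N (b i ζ, k ζ, c.f ζ) else root, b1,
    fun ζ => ?_, fun ζ h => ?_, fun ζ h => if_neg (a2 ▸ h)⟩, fun _ _ => ⟨rfl, rfl⟩,
    fun i => ⟨a1, a3, a4, b2, fun ζ h => ?_⟩, fun i j ζ e => by simp only [e]⟩
  · split_ifs with h
    exacts [(b4 i ζ h).1, b1.root]
  · rw [a2] at h
    rw [if_pos h, a3]
    exact (b4 i ζ h).2.2
  · simp only [if_pos h]
    exact (b4 i ζ h).2.1

theorem jump (p : Cond) {c : Qc} (hc : c ≤ p.c) (b : O → Lab)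
    (hb : ∀ ζ, b ζ ∈ p.L ∧ (b ζ).x = c.f ζ ∩ Iio (b ζ).r) :
    ∃ r : Cond, r.c ≤ c ∧ r.c.f = c.f ∧ c.α < r.c.α ∧
      ∀ q : Cond, c ≤ q.c → EE q.c.α q.L p.L → q.c.α ≤ p.c.α → (∀ ζ ∈ q.c.D, q.y ζ ≤ b ζ) →
        r ≤ q := by
  obtain ⟨r, -, h, -⟩ := jump2 p hc (fun _ => b) fun _ => hb
  obtain ⟨a1, a2, a3, a4, a5⟩ := h true
  exact ⟨r true, a1, a2, a3, fun q b1 b2 b3 b4 => ⟨a1.trans b1, b2.trans a4 b3,
    fun ζ hζ => (b4 ζ hζ).trans (a5 ζ (b1.D hζ))⟩⟩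

/-- every extension of the first part can be labelled -/
theorem lift_c (p : Cond) {c : Qc} (hc : c ≤ p.c) :
    ∃ r ≤ p, r.c ≤ c ∧ r.c.f = c.f ∧ c.α < r.c.α := by
  obtain ⟨r, a1, a2, a3, a4⟩ := jump p hc p.y fun ζ => ⟨p.y_L ζ, p.y_x hc ζ⟩
  exact ⟨r, a4 p hc (le_refl p).L le_rfl fun _ _ => le_rfl, a1, a2, a3⟩

open Classical in
/-- exchange of the labels above `ξ` -/
theorem swap (p : Cond) {c : Qc} (hc : c ≤ p.c) (ξ : O) (b : O → Lab)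
    (hb : ∀ ζ, b ζ ∈ p.L ∧ (b ζ).x = c.f ζ ∩ Iio (b ζ).r) :
    ∃ r : Cond, r.c ≤ c ∧ r ≤ p.res ξ ∧
      ∀ q : Cond, c ≤ q.c → p ≤ q.res ξ → (∀ ζ, q.y ζ ≤ b ζ) → r ≤ q := by
  obtain ⟨r, a1, -, -, a4⟩ := jump p hc (fun ζ => if ζ < ξ then p.y ζ else b ζ) fun ζ => by
    split_ifs
    exacts [⟨p.y_L ζ, p.y_x hc ζ⟩, hb ζ]
  refine ⟨r, a1, a4 _ (hc.trans (p.c.le_res ξ)) (le_refl p).L le_rfl fun ζ h => ?_,
    fun q b1 b2 b3 => a4 q b1 b2.L b2.c.α fun ζ _ => ?_⟩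
  · rw [if_pos (show ζ < ξ from h.2), p.res_y h.2]
  · split_ifs with h
    · rw [← q.res_y h]
      exact b2.y' ζ
    · exact b3 ζ

theorem amalg {r q : Cond} {ξ : O} (hr : r.c.InX ξ) (h : r ≤ q.res ξ) : ∃ s, s ≤ r ∧ s ≤ q := by
  obtain ⟨c, a1, a2, -⟩ := Qc.amalg1 hr h.c
  obtain ⟨s, -, b2, b3⟩ := swap r a1 ξ q.y fun ζ => ⟨h.L.sub (q.y_L ζ), q.y_x a2 ζ⟩
  exact ⟨s, b2.trans (Cond.res_le le_rfl hr), b3 q a2 h fun _ => le_rfl⟩

theorem dense_sep (p : Cond) : ∃ q, SepC p q := by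
  obtain ⟨c, a1, a2⟩ := Qc.cl.meet p.c (p.c.D_sm.prod p.c.D_sm)
    (fun z c => z.1 ≠ z.2 → z.1 ∈ c.D ∧ z.2 ∈ c.D ∧ c.f z.1 ≠ c.f z.2)
    (fun z _ x _ => by
      by_cases h : z.1 = z.2
      · exact ⟨x, le_rfl, fun h' => absurd h h'⟩
      · obtain ⟨y, b1, b2⟩ := x.dense_ne h
        exact ⟨y, b1, fun _ => b2⟩)
    fun z x y h H hz => ⟨h.D (H hz).1, h.D (H hz).2.1, fun e => (H hz).2.2 (by
      rw [h.f _ (H hz).1, h.f _ (H hz).2.1, e])⟩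
  obtain ⟨r, b1, -, b3, b4⟩ := lift_c p a1
  refine ⟨r, b1, a1.α.trans_lt b4, fun ζ hζ ζ' hζ' e => ?_⟩
  by_contra hne
  exact (a2 (ζ, ζ') ⟨hζ, hζ'⟩ hne).2.2 (b3 ▸ e)

theorem dense_D (p : Cond) (η : O) {β : O} (hβ : β < kk) : ∃ q ≤ p, η ∈ q.c.D ∧ β ≤ q.c.α := by
  obtain ⟨c, a1, a2, a3⟩ := p.c.dense_D η hβ
  obtain ⟨r, b1, b2, -⟩ := lift_c p a1
  exact ⟨r, b1, b2.D a2, a3.trans b2.α⟩

theorem dense_ne (p : Cond) {η η' : O} (h : η ≠ η') :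
    ∃ q ≤ p, η ∈ q.c.D ∧ η' ∈ q.c.D ∧ q.c.f η ≠ q.c.f η' := by
  obtain ⟨c, a1, a2, a3, a4⟩ := p.c.dense_ne h
  obtain ⟨r, b1, b2, b3, -⟩ := lift_c p a1
  exact ⟨r, b1, b2.D a2, b2.D a3, b3 ▸ a4⟩

theorem dense_lab (q : Cond) (X : Set O) (hX : X ∈ q.c.t) : ∃ q' ≤ q, ∃ u ∈ q'.L, u.x = X := by
  classical
  have := q.c.D_sm.small
  obtain ⟨ζ, hζ⟩ := small_bound q.c.D
  have h0 : ζ ∉ q.c.D := fun h => lt_irrefl _ (hζ ζ h)
  let c : Qc := { q.c with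
    D := insert ζ q.c.D
    f := update q.c.f ζ X
    D_sm := q.c.D_sm.insert _
    f_D := fun η hη => by
      rw [update_of_ne fun e : η = ζ => hη (Or.inl e)]
      exact q.c.f_D η fun h => hη (Or.inr h)
    f_t := fun η => by
      by_cases e : η = ζ
      · rw [e, update_self]; exact hX
      · rw [update_of_ne e]; exact q.c.f_t η }
  obtain ⟨r, b1, b2, b3, -⟩ := lift_c q (c := c) ⟨Subset.rfl, le_rfl, (le_refl q.c).t,
    subset_insert _ _, fun η hη => by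
      change _ = update q.c.f ζ X η ∩ _
      rw [update_of_ne fun e : η = ζ => h0 (e ▸ hη)]
      exact (le_refl q.c).f η hη⟩
  refine ⟨r, b1, r.y ζ, r.y_L ζ, ?_⟩
  rw [(r.y_D ζ (b2.D (Or.inl rfl))).2, b3]
  exact update_self _ _ _

end Pool.Agent.P.MP_a5be26_lc.Sep

end

section

/-!
Limits of directed families of conditions with a prescribed height.
-/

open Set Function Cardinal Ordinal

namespace Pool.Agent.P.MP_a5be26_lc.Sep

theorem qc_lim {ι : Type*} [Nonempty ι] (hι : Sm (univ : Set ι)) (g : ι → Qc)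
    (hd : ∀ i j, ∃ m, g m ≤ g i ∧ g m ≤ g j) (δ : O) (h1 : ∀ i, (g i).α < δ)
    (h2 : ∀ β < δ, ∃ i, β < (g i).α) :
    ∃ r : Qc, (∀ i, r ≤ g i) ∧ r.α = δ ∧ r.D = ⋃ i, (g i).D ∧ (∀ ζ, r.f ζ = ⋃ i, (g i).f ζ) ∧
      ∀ s ∈ r.t, (∃ u : ℕ → ι, ∀ x ∈ s, ∃ n, x < (g (u n)).α) ∨
        ∃ i, ∃ ζ ∈ (g i).D, s = r.f ζ := by
  obtain ⟨b, hb, hb'⟩ := (hι.image fun i => (g i).α).bound
    (by rintro _ ⟨i, -, rfl⟩; exact (g i).α_lt)
  have hα : δ < kk := by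
    refine lt_of_le_of_lt (not_lt.1 fun h => ?_) hb
    obtain ⟨i, hi⟩ := h2 b h
    exact lt_asymm hi (hb' _ ⟨i, trivial, rfl⟩)
  have hα'' : ∀ i, (g i).α ≤ δ := fun i => (h1 i).le
  have hU : ∀ {β : Type 1} (s : ι → Set β), (∀ i, Sm (s i)) → Sm (⋃ i, s i) := fun s hs => by
    simpa using hι.biUnion fun i _ => hs i
  let T : Set (Set Ordinal.{0}) := {s | (∀ i, s ∩ Iio (g i).α ∈ (g i).t) ∧
    ((∃ u : ℕ → ι, ∀ x ∈ s, ∃ n, x < (g (u n)).α) ∨ ∃ η ∈ ⋃ i, (g i).D, s = ⋃ i, (g i).f η)}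
  have hsub : ∀ s ∈ T, ∀ x ∈ s, ∃ i, x < (g i).α := by
    rintro s ⟨-, ⟨u, hu⟩ | ⟨η, -, rfl⟩⟩ x hx
    · obtain ⟨n, hn⟩ := hu x hx
      exact ⟨_, hn⟩
    · exact union_f_sub η x hx
  have hT : ∀ i, (g i).t ⊆ T := fun i s hs =>
    ⟨fun j => by
      obtain ⟨m, h1, h2⟩ := hd i j
      exact h2.cut (h1.t_sub hs), Or.inl ⟨fun _ => i, fun x hx => ⟨0, (g i).t_sub s hs hx⟩⟩⟩
  obtain ⟨i0⟩ := ‹Nonempty ι›
  refine ⟨⟨⋃ i, (g i).l, δ, T, ⋃ i, (g i).D, fun η => ⋃ i, (g i).f η, hU _ fun i => (g i).l_sm,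
    fun z hz => ?_, union_l_inj hd, hα, ?_, fun s hs x hx => ?_, hT i0 (g i0).t_emp, ?_, ?_,
    hU _ fun i => (g i).D_sm, fun η hη => iUnion_eq_empty.2 fun i => (g i).f_D η fun h =>
      hη (mem_iUnion.2 ⟨i, h⟩), fun η => ?_⟩, fun i => ⟨subset_iUnion (fun i => (g i).l) i, hα'' i,
    fun s => ⟨fun h => ⟨hT i h, (g i).t_sub s h⟩, fun h => ?_⟩, subset_iUnion (fun i => (g i).D) i,
    fun η hη => (union_f hd hη).symm⟩, rfl, rfl, fun _ => rfl, fun s hs => ?_⟩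
  · obtain ⟨i, hi⟩ := mem_iUnion.1 hz
    exact (g i).l_lt z hi
  · refine (((hU _ fun i => (g i).t_sm).seqs.image fun u => ⋃ n, u n).union
      ((hU _ fun i => (g i).D_sm).image fun η => ⋃ i, (g i).f η)).mono ?_
    rintro s ⟨h1, ⟨u, hu⟩ | ⟨η, h2, rfl⟩⟩
    · refine Or.inl ⟨fun n => s ∩ Iio (g (u n)).α, fun n => mem_iUnion.2 ⟨u n, h1 _⟩, ?_⟩
      refine Subset.antisymm (iUnion_subset fun n => inter_subset_left) fun x hx => ?_
      obtain ⟨n, hn⟩ := hu x hx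
      exact mem_iUnion.2 ⟨n, hx, hn⟩
    · exact Or.inr ⟨η, h2, rfl⟩
  · obtain ⟨i, hi⟩ := hsub s hs x hx
    exact hi.trans_le (hα'' i)
  · intro s hs β
    by_cases h : ∃ i, β ≤ (g i).α
    · obtain ⟨i, hi⟩ := h
      refine ⟨fun j => ?_, Or.inl ⟨fun _ => i, fun x hx => ⟨0, hx.2.trans_le hi⟩⟩⟩
      rw [inter_right_comm]
      exact (g j).t_cut _ (hs.1 j) β
    · have : s ∩ Iio β = s := inter_eq_left.2 fun x hx => by
        obtain ⟨i, hi⟩ := hsub s hs x hx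
        exact hi.trans (not_le.1 fun h' => h ⟨i, h'⟩)
      rwa [this]
  · intro s β h1 h2
    by_cases h : ∀ n, ∃ i, β n ≤ (g i).α
    · choose u hu using h
      refine ⟨fun j => (g j).t_cl _ β (fun x hx => h1 x hx.1) fun n => ?_,
        Or.inl ⟨u, fun x hx => (h1 x hx).imp fun n hn => hn.trans_le (hu n)⟩⟩
      rw [inter_right_comm]
      exact (h2 n).1 j
    · push Not at h
      obtain ⟨n, hn⟩ := h
      have : s ∩ Iio (β n) = s := inter_eq_left.2 fun x hx => by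
        obtain ⟨m, hm⟩ := h1 x hx
        obtain ⟨i, hi⟩ := hsub _ (h2 m) x ⟨hx, hm⟩
        exact hi.trans (hn i)
      exact this ▸ h2 n
  · by_cases h : η ∈ ⋃ i, (g i).D
    · exact ⟨union_f_cut hd η, Or.inr ⟨η, h, rfl⟩⟩
    · have : (⋃ i, (g i).f η) = ∅ := iUnion_eq_empty.2 fun i => (g i).f_D η fun h' =>
        h (mem_iUnion.2 ⟨i, h'⟩)
      simp only [this]
      exact hT i0 (g i0).t_emp
  · have := h.1.1 i
    rwa [inter_eq_left.2 h.2] at this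
  · refine hs.2.imp id ?_
    rintro ⟨η, h, e⟩
    obtain ⟨i, hi⟩ := mem_iUnion.1 h
    exact ⟨i, η, hi, e⟩

end Pool.Agent.P.MP_a5be26_lc.Sep

end
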