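import Pool.Agent.P.MP_a5be26_lc.Sep.B1

section

/-!
The union of a directed family of good sets of labels, together with limit labels, is good.
-/

open Set Function Cardinal Ordinal

namespace Pool.Agent.P.MP_a5be26_lc.Sep

theorem good_lim {ι : Type*} [Nonempty ι] (hι : Sm (univ : Set ι)) (g : ι → Cond)
    (hd : ∀ i j, ∃ m, g m ≤ g i ∧ g m ≤ g j) (δ : O) (h1 : ∀ i, (g i).c.α < δ)
    (h2 : ∀ β < δ, ∃ i, β < (g i).c.α) (t : Set (Set O)) (ht : ∀ i, (g i).c.t ⊆ t) (U : Set Lab)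
    (hU : Sm U)
    (hU' : ∀ u ∈ U, u.r = δ ∧ u.x ∈ t ∧ Cf u.s u.s ∧
      (∀ z ∈ u.s, ∃ v ∈ ⋃ i, (g i).L, v ≤ u ∧ z ∈ v.s) ∧
      ∀ β < δ, ∃ v ∈ ⋃ i, (g i).L, v ≤ u ∧ β < v.r)
    (hs : Big δ → Star t (⋃ i, (g i).L) δ) : Good δ t ((⋃ i, (g i).L) ∪ U) := by
  have two : ∀ u ∈ ⋃ i, (g i).L, ∀ v ∈ ⋃ i, (g i).L, ∃ m, u ∈ (g m).L ∧ v ∈ (g m).L := by
    intro u hu v hv
    obtain ⟨i, hi⟩ := mem_iUnion.1 hu
    obtain ⟨j, hj⟩ := mem_iUnion.1 hv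
    obtain ⟨m, a, b⟩ := hd i j
    exact ⟨m, a.L.sub hi, b.L.sub hj⟩
  have old : ∀ u ∈ ⋃ i, (g i).L, u.r < δ := by
    intro u hu
    obtain ⟨i, hi⟩ := mem_iUnion.1 hu
    exact ((g i).good.rk u hi).trans_lt (h1 i)
  have memi : ∀ i, ∀ u ∈ ⋃ i, (g i).L, u.r ≤ (g i).c.α → u ∈ (g i).L := by
    intro i u hu hr
    obtain ⟨j, hj⟩ := mem_iUnion.1 hu
    obtain ⟨m, a, b⟩ := hd i j
    exact (a.L u).2 ⟨b.L.sub hj, hr⟩
  have cmp0 : ∀ u ∈ ⋃ i, (g i).L, ∀ v ∈ ⋃ i, (g i).L, u.s ⊆ v.s →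
      u ≤ v ∧ (v.r ≤ u.r → u = v) := by
    intro u hu v hv h
    obtain ⟨m, a, b⟩ := two u hu v hv
    exact (g m).good.cmp u a v b h
  have rk0 : ∀ u ∈ ⋃ i, (g i).L, ∀ v ∈ ⋃ i, (g i).L, Cf u.s v.s → u.r ≤ v.r → u ≤ v := by
    intro u hu v hv h h'
    obtain ⟨m, a, b⟩ := two u hu v hv
    exact (g m).good.le_of_rk a b h h'
  have dn0 : ∀ u ∈ ⋃ i, (g i).L, Dn u.s := by
    intro u hu
    obtain ⟨i, hi⟩ := mem_iUnion.1 hu
    exact (g i).good.dn u hi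
  have down0 : ∀ v ∈ ⋃ i, (g i).L, ∀ s, Dn s → s ⊆ v.s →
      ∃ u ∈ (⋃ i, (g i).L) ∪ U, u.s = s := by
    intro v hv s a b
    obtain ⟨i, hi⟩ := mem_iUnion.1 hv
    obtain ⟨u, c, d⟩ := (g i).good.down v hi s a b
    exact ⟨u, Or.inl (mem_iUnion.2 ⟨i, c⟩), d⟩
  have hA : ∀ u ∈ U, ∀ w ∈ ⋃ i, (g i).L, w.s ⊆ u.s → w ≤ u := by
    intro u hu w hw h
    obtain ⟨-, -, c, -, e⟩ := hU' u hu
    obtain ⟨v, hv, a, b⟩ := e w.r (old w hw)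
    exact (rk0 w hw v hv (c.mono h a.1) b.le).trans a
  have hB : ∀ u ∈ U, ∀ w ∈ ⋃ i, (g i).L, ¬ u.s ⊆ w.s := by
    intro u hu w hw h
    obtain ⟨v, hv, a, b⟩ := (hU' u hu).2.2.2.2 w.r (old w hw)
    exact absurd (cmp0 v hv w hw (a.1.trans h)).1.2.1 (not_le.2 b)
  have hC : ∀ u ∈ U, ∀ u' ∈ U, u.s ⊆ u'.s → u = u' := by
    intro u hu u' hu' h
    obtain ⟨r, -, -, -, e⟩ := hU' u hu
    obtain ⟨r', -, c', d', -⟩ := hU' u' hu'
    refine Lab.ext (h.antisymm fun z hz => ?_) (r.trans r'.symm) ?_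
    · obtain ⟨v', hv', a', b'⟩ := d' z hz
      obtain ⟨v, hv, a, b⟩ := e v'.r (old v' hv')
      exact a.1 ((rk0 v' hv' v hv (c'.mono a'.1 (a.1.trans h)) b.le).1 b')
    · have key : ∀ β < δ, β ∈ u.x ↔ β ∈ u'.x := by
        intro β hβ
        obtain ⟨v, hv, a, b⟩ := e β hβ
        have a' := hA u' hu' v hv (a.1.trans h)
        have e1 := Set.ext_iff.1 (a.2.2.symm.trans a'.2.2) β
        exact ⟨fun k => (e1.1 ⟨k, b⟩).1, fun k => (e1.2 ⟨k, b⟩).1⟩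
      ext β
      exact ⟨fun k => (key β (r ▸ u.x_sub k)).1 k, fun k => (key β (r' ▸ u'.x_sub k)).2 k⟩
  have rk : ∀ u ∈ (⋃ i, (g i).L) ∪ U, u.r ≤ δ := by
    rintro u (hu | hu)
    exacts [(old u hu).le, (hU' u hu).1.le]
  have isold : ∀ u ∈ (⋃ i, (g i).L) ∪ U, u.r < δ → u ∈ ⋃ i, (g i).L := by
    rintro u (hu | hu) h
    exacts [hu, absurd (hU' u hu).1 h.ne]
  have cmp : ∀ u ∈ (⋃ i, (g i).L) ∪ U, ∀ v ∈ (⋃ i, (g i).L) ∪ U, u.s ⊆ v.s →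
      u ≤ v ∧ (v.r ≤ u.r → u = v) := by
    rintro u (hu | hu) v (hv | hv) h
    · exact cmp0 u hu v hv h
    · exact ⟨hA v hv u hu h, fun k => absurd ((hU' v hv).1 ▸ k) (not_le.2 (old u hu))⟩
    · exact absurd h (hB u hu v hv)
    · exact ⟨(hC u hu v hv h).le, fun _ => hC u hu v hv h⟩
  refine ⟨Sm.union ?_ hU, ?_, ?_, ?_, rk, ?_, cmp, ?_, ?_, ?_, ?_⟩
  · simpa using hι.biUnion fun i _ => (g i).good.sm
  · rintro u (hu | hu)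
    · exact dn0 u hu
    · intro z hz β hβ
      obtain ⟨v, hv, a, b⟩ := (hU' u hu).2.2.2.1 z hz
      obtain ⟨γ, c⟩ := dn0 v hv z b β hβ
      exact ⟨γ, a.1 c⟩
  · rintro u (hu | hu)
    · obtain ⟨i, hi⟩ := mem_iUnion.1 hu
      exact (g i).good.fn u hi
    · exact (hU' u hu).2.2.1
  · rintro u (hu | hu) z hz
    · obtain ⟨i, hi⟩ := mem_iUnion.1 hu
      exact (g i).good.bd u hi z hz
    · obtain ⟨v, hv, a, b⟩ := (hU' u hu).2.2.2.1 z hz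
      obtain ⟨i, hi⟩ := mem_iUnion.1 hv
      obtain ⟨c, d, e⟩ := (g i).good.bd v hi z b
      exact ⟨c.trans_le a.2.1, d, e.trans_le a.2.1⟩
  · rintro u (hu | hu)
    · obtain ⟨i, hi⟩ := mem_iUnion.1 hu
      exact ht i ((g i).good.xt u hi)
    · exact (hU' u hu).2.1
  · rintro v (hv | hv) s a b
    · exact down0 v hv s a b
    · by_cases h : v.s ⊆ s
      · exact ⟨v, Or.inr hv, h.antisymm b⟩
      · obtain ⟨z, hz, hz'⟩ := not_subset.1 h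
        obtain ⟨w, hw, c, d⟩ := (hU' v hv).2.2.2.1 z hz
        rcases a.cmp (dn0 w hw) ((hU' v hv).2.2.1.mono b c.1) with e | e
        · exact down0 w hw s a e
        · exact absurd (e d) hz'
  · obtain ⟨i⟩ := ‹Nonempty ι›
    exact Or.inl (mem_iUnion.2 ⟨i, (g i).good.root⟩)
  · intro u hu v hv β hβ
    have vo : ∀ n, v n ∈ ⋃ i, (g i).L := fun n =>
      isold _ (hv.1 n) ((hv.2.1 n).trans_le (rk _ (hv.1 (n + 1))))
    have vs : ∀ n, (v n).s ⊆ u.s := fun n => by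
      rw [hv.2.2]
      exact subset_iUnion (fun n => (v n).s) n
    rcases hu with hu | hu
    · obtain ⟨i, hi⟩ := mem_iUnion.1 hu
      exact (g i).good.cont u hi v ⟨fun n => memi i _ (vo n)
        ((cmp0 _ (vo n) u hu (vs n)).1.2.1.trans ((g i).good.rk u hi)), hv.2⟩ β hβ
    · obtain ⟨r, -, c, -, e⟩ := hU' u hu
      obtain ⟨w, hw, a, b⟩ := e β (r ▸ hβ)
      by_contra hn
      refine hB u hu w hw ?_
      rw [hv.2.2]
      exact iUnion_subset fun n => (rk0 _ (vo n) w hw (c.mono (vs n) a.1)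
        ((not_lt.1 fun k => hn ⟨n, k⟩).trans b.le)).1
  · intro d hd' hb
    have hc : ∀ u ∈ (⋃ i, (g i).L) ∪ U, ∀ v ∈ (⋃ i, (g i).L) ∪ U, u.s ⊆ v.s → u.r ≤ v.r :=
      fun u hu v hv h => (cmp u hu v hv h).1.2.1
    rcases hd'.eq_or_lt with rfl | hlt
    · exact (hs hb).ext Subset.rfl isold hc
    · obtain ⟨i, hi⟩ := h2 d hlt
      exact ((g i).good.star d hi.le hb).ext (ht i)
        (fun u hu hr => memi i u (isold u hu (hr.trans hlt)) (hr.trans hi).le) hc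

end Pool.Agent.P.MP_a5be26_lc.Sep

end

section

/-!
The limit of a run satisfies the prediction property at the supremum of the heights.
-/

open Set Function Cardinal Ordinal

namespace Pool.Agent.P.MP_a5be26_lc.Sep

theorem Run.anti {x0 : Cond} {θ : O} {m n : O → Cond} (h : Run x0 θ m n) {i j : O}
    (hij : i ≤ j) (hj : j < θ) : m j ≤ m i := by
  rcases hij.eq_or_lt with rfl | hlt
  · exact le_rfl
  · exact (h.le j hj i hlt).trans (h.sep i (hlt.trans hj)).1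

theorem run_star {x0 : Cond} {θ : O} {m n : O → Cond} (h : Run x0 θ m n)
    (hθ : Order.IsSuccLimit θ) (δ : O) (h1 : ∀ i < θ, (m i).c.α < δ)
    (h2 : ∀ β < δ, ∃ i < θ, β < (m i).c.α) :
    Star (range fun ζ => ⋃ i : Iio θ, (m i).c.f ζ) (⋃ i : Iio θ, (m i).L) δ := by
  classical
  have hd : ∀ i j : Iio θ, ∃ k : Iio θ, (m k).c ≤ (m i).c ∧ (m k).c ≤ (m j).c := fun i j => by
    rcases le_total i.1 j.1 with c | c
    · exact ⟨j, (h.anti c j.2).c, le_rfl⟩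
    · exact ⟨i, le_rfl, (h.anti c i.2).c⟩
  obtain ⟨F, hFe⟩ : ∃ F : O → Set O, F = fun ζ => ⋃ i : Iio θ, (m i).c.f ζ := ⟨_, rfl⟩
  have hF : ∀ j < θ, ∀ ζ ∈ (m j).c.D, F ζ ∩ Iio (m j).c.α = (m j).c.f ζ := fun j hj ζ hζ => by
    rw [hFe]
    exact union_f (g := fun i : Iio θ => (m i).c) hd (j := ⟨j, hj⟩) hζ
  rw [← hFe]
  have hmem : ∀ w ∈ ⋃ i : Iio θ, (m i).L, ∀ j < θ, w.r ≤ (m j).c.α → w ∈ (m j).L := by
    intro w hw j hj hr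
    obtain ⟨i, hi⟩ := mem_iUnion.1 hw
    rcases le_total i.1 j with c | c
    · exact (h.anti c hj).L.sub hi
    · exact ((h.anti c i.2).L w).2 ⟨hi, hr⟩
  have hg : ∀ β : O, ∃ γ : O, β < δ → γ < δ ∧
      ∀ j < θ, (∀ i < j, (m i).c.α ≤ β) → (m j).c.α ≤ γ := fun β => by
    by_cases hβ : β < δ
    · obtain ⟨i, hi, hi'⟩ := h2 β hβ
      refine ⟨(m i).c.α, fun _ => ⟨h1 i hi, fun j _ hj => ?_⟩⟩
      have : j ≤ i := not_lt.1 fun c => absurd (hj i c) (not_le.2 hi')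
      exact (h.anti this hi).c.α
    · exact ⟨0, fun c => absurd c hβ⟩
  choose g hg using hg
  have hτ : ∀ v : Lab, ∃ ζ' : O, ∀ i < θ, ∀ ζ ∈ (m i).c.D, v.x = F ζ ∩ Iio v.r →
      ζ' ∈ (m i).c.D ∧ v.x = F ζ' ∩ Iio v.r := fun v => by
    by_cases hv : {i | i < θ ∧ ∃ ζ ∈ (m i).c.D, v.x = F ζ ∩ Iio v.r}.Nonempty
    · obtain ⟨_, ζ', a1, a2⟩ := wellFounded_lt.min_mem _ hv
      refine ⟨ζ', fun i hi ζ hζ e => ⟨?_, a2⟩⟩
      exact (h.anti (not_lt.1 (wellFounded_lt.not_lt_min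
        {i | i < θ ∧ ∃ ζ ∈ (m i).c.D, v.x = F ζ ∩ Iio v.r} (x := i) ⟨hi, ζ, hζ, e⟩)) hi).c.D a1
    · exact ⟨0, fun i hi ζ hζ e => absurd ⟨i, hi, ζ, hζ, e⟩ hv⟩
  choose τ hτ using hτ
  refine ⟨g, fun v => F (τ v), fun β hβ => (hg β hβ).1, fun v => mem_range_self _,
    fun u hu hr v hv hfast => ?_⟩
  have hle : ∀ k, v k ≤ u := fun k => by
    obtain ⟨i, hi⟩ := mem_iUnion.1 hu
    obtain ⟨j, hj⟩ := mem_iUnion.1 (hv.1 k)
    have hs : (v k).s ⊆ u.s := by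
      rw [hv.2.2]
      exact subset_iUnion (fun k => (v k).s) k
    rcases le_total i.1 j.1 with c | c
    · exact ((m j).good.cmp _ hj _ ((h.anti c j.2).L.sub hi) hs).1
    · exact ((m i).good.cmp _ ((h.anti c i.2).L.sub hj) _ hi hs).1
  have hne : {i | i < θ ∧ u.r ≤ (m i).c.α}.Nonempty := by
    obtain ⟨i, hi⟩ := mem_iUnion.1 hu
    exact ⟨i, i.2, (m i).good.rk u hi⟩
  obtain ⟨j, ⟨hj, hjr⟩, hmin⟩ : ∃ j, (j < θ ∧ u.r ≤ (m j).c.α) ∧ ∀ i < j, (m i).c.α < u.r :=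
    ⟨_, wellFounded_lt.min_mem _ hne, fun i hi => not_le.1 fun c =>
      wellFounded_lt.not_lt_min {i | i < θ ∧ u.r ≤ (m i).c.α} (x := i)
        ⟨hi.trans (wellFounded_lt.min_mem _ hne).1, c⟩ hi⟩
  have huj : u ∈ (m j).L := hmem u hu j hj hjr
  have hcont : ∀ β < u.r, ∃ k, β < (v k).r := (m j).good.cont u huj v
    ⟨fun k => hmem _ (hv.1 k) j hj ((hle k).2.1.trans hjr), hv.2⟩
  have hno : ∀ k, ¬ ∀ i < j, (m i).c.α ≤ (v k).r := fun k c =>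
    absurd ((hfast k).trans_le ((hle (k + 1)).2.1.trans hjr))
      (not_lt.2 ((hg _ ((hle k).2.1.trans_lt hr)).2 j hj c))
  rcases Ordinal.zero_or_succ_or_isSuccLimit j with rfl | ⟨i, rfl⟩ | hl
  · exact absurd (fun i hi => absurd hi not_lt_zero) (hno 0)
  · obtain ⟨k, hk⟩ := hcont _ (hmin i (Order.lt_succ i))
    exact absurd (fun i' hi' => (h.anti (Order.lt_succ_iff.1 hi')
      ((Order.lt_succ i).trans hj)).c.α.trans hk.le) (hno k)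
  · obtain ⟨t1, t2⟩ := h.top j hj hl
    have e : u.r = (m j).c.α := hjr.antisymm (not_lt.1 fun c => by
      obtain ⟨i, hi⟩ := t1 _ c
      exact absurd hi (not_lt.2 (hmin i i.2).le))
    obtain ⟨⟨i, hi⟩, ζ, hζ, hx⟩ := t2 u huj e
    have hi : i < j := hi
    have hζ : ζ ∈ (m i).c.D := hζ
    have hi1 : Order.succ i < j := hl.succ_lt hi
    have hux : u.x = F ζ ∩ Iio u.r := by
      rw [hx, e, hF j hj ζ ((h.anti hi.le hj).c.D hζ)]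
    have hvx : ∀ k, (v k).x = F ζ ∩ Iio (v k).r := fun k => by
      rw [(hle k).2.2, hux, inter_assoc, inter_eq_right.2 (Iio_subset_Iio (hle k).2.1)]
    obtain ⟨k, hk⟩ := hcont _ (hmin _ hi1)
    obtain ⟨a1, a2⟩ := hτ (v k) i (hi.trans hj) ζ hζ (hvx k)
    obtain ⟨s1, -, s3⟩ := h.sep i (hi.trans hj)
    have s4 : m (Order.succ i) ≤ n i := h.le _ (hi1.trans hj) i (Order.lt_succ i)
    have key : ∀ η ∈ (m i).c.D, (n i).c.f η =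
        F η ∩ Iio (v k).r ∩ Iio (m (Order.succ i)).c.α ∩ Iio (n i).c.α := fun η hη => by
      rw [s4.c.f η (s1.c.D hη), ← hF _ (hi1.trans hj) η (s4.c.D (s1.c.D hη)),
        inter_assoc (F η) (Iio (v k).r), inter_eq_right.2 (Iio_subset_Iio hk.le)]
    have e2 : τ (v k) = ζ := s3 a1 hζ (by rw [key _ a1, key _ hζ, ← a2, ← hvx k])
    exact ⟨k, (hvx (k + 1)).trans (by simp only [e2])⟩

end Pool.Agent.P.MP_a5be26_lc.Sep

end

section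

/-!
The conditions supported below an ordinal form a small type.
-/

open Set Function Cardinal Ordinal

namespace Pool.Agent.P.MP_a5be26_lc.Sep

/-- the labels which can occur in a condition -/
def LL : Set Lab := {u | u.r < kk ∧ u.s ⊆ Iio kk ×ˢ Iio kk}

instance small_LL : Small.{0} LL := by
  let F : LL → 𝒫 (Iio kk ×ˢ Iio kk) × Iio kk × 𝒫 (Iio kk) := fun u =>
    (⟨u.1.s, u.2.2⟩, ⟨u.1.r, u.2.1⟩, ⟨u.1.x, u.1.x_sub.trans (Iio_subset_Iio u.2.1.le)⟩)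
  refine small_of_injective (f := F) fun p q e => Subtype.ext ?_
  simp only [F, Prod.mk.injEq] at e
  exact Lab.ext (congrArg Subtype.val e.1) (congrArg Subtype.val e.2.1)
    (congrArg Subtype.val e.2.2)

theorem Cond.L_sub_LL (p : Cond) : p.L ⊆ LL := fun u hu =>
  have h : u.r < kk := (p.good.rk u hu).trans_lt p.c.α_lt
  ⟨h, fun z hz => ⟨(p.good.bd u hu z hz).1.trans h, (p.good.bd u hu z hz).2.2.trans h⟩⟩

theorem small_cond (ξ : O) : Small.{0} {p : Cond | p.c.InX ξ} := by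
  let F : {p : Cond | p.c.InX ξ} → {c : Qc | c.InX ξ} × 𝒫 LL × (Iio ξ → LL) := fun p =>
    (⟨p.1.c, p.2⟩, ⟨p.1.L, p.1.L_sub_LL⟩, fun ζ => ⟨p.1.y ζ, p.1.L_sub_LL (p.1.y_L ζ)⟩)
  refine small_of_injective (f := F) fun p q e => Subtype.ext ?_
  simp only [F, Prod.mk.injEq] at e
  refine Cond.ext (congrArg Subtype.val e.1) (congrArg Subtype.val e.2.1) (funext fun ζ => ?_)
  by_cases h : ζ < ξ
  · exact congrArg Subtype.val (congrFun e.2.2 ⟨ζ, h⟩)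
  · rw [p.1.y_root ζ fun a => h (p.2.2 ζ a), q.1.y_root ζ fun a => h (q.2.2 ζ a)]

end Pool.Agent.P.MP_a5be26_lc.Sep

end

section

/-!
Limits of labelled conditions, runs, and the frame structure.
-/

open Set Function Cardinal Ordinal

namespace Pool.Agent.P.MP_a5be26_lc.Sep

theorem lim0 {ι : Type*} [Nonempty ι] (hι : Sm (Set.univ : Set ι)) (g : ι → Cond)
    (hd : ∀ i j, ∃ m, g m ≤ g i ∧ g m ≤ g j) (δ : O) (h1 : ∀ i, (g i).c.α < δ)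
    (h2 : ∀ β < δ, ∃ i, β < (g i).c.α) (X : Set (O × Set Lab)) (hX : Sm X)
    (hX' : ∀ e ∈ X, Ex g δ e.1 e.2)
    (hs : Big δ → Star (range fun ζ => ⋃ i, (g i).c.f ζ) (⋃ i, (g i).L) δ) :
    ∃ r : Cond, (∀ i, r ≤ g i) ∧ r.c.α = δ ∧
      (∀ u ∈ r.L, u.r = δ → ∃ i, ∃ ζ ∈ (g i).c.D, u.x = r.c.f ζ) ∧
      (∀ s ∈ r.c.t, (∃ u : ℕ → ι, ∀ x ∈ s, ∃ n, x < (g (u n)).c.α) ∨
        ∃ i, ∃ ζ ∈ (g i).c.D, s = r.c.f ζ) ∧
      ∀ e ∈ X, ∃ b ∈ r.L, b.r = δ ∧ b.x = r.c.f e.1 ∧ ∀ v ∈ e.2, v ≤ b := by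
  classical
  have hd' : ∀ i j, ∃ m, (g m).c ≤ (g i).c ∧ (g m).c ≤ (g j).c := fun i j =>
    let ⟨m, a, b⟩ := hd i j; ⟨m, a.c, b.c⟩
  obtain ⟨c, a1, rfl, a3, a4, a5⟩ := qc_lim hι (fun i => (g i).c) hd' δ h1 h2
  let N : O × Set Lab → Lab := fun e => ⟨⋃ v ∈ e.2, v.s, c.α, c.f e.1, c.t_sub _ (c.f_t _)⟩
  let X' : Set (O × Set Lab) := X ∪ (fun ζ => (ζ, range fun i => (g i).y ζ)) '' c.D
  have hE : ∀ e ∈ X', Ex g c.α e.1 e.2 := by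
    rintro e (he | ⟨ζ, hζ, rfl⟩)
    · exact hX' e he
    obtain ⟨i, hi⟩ := mem_iUnion.1 (a3 ▸ hζ)
    refine ⟨⟨i, hi⟩, ?_, ?_, fun β hβ => ?_, ?_⟩
    · rintro _ ⟨j, rfl⟩
      exact ⟨j, (g j).y_L ζ⟩
    · rintro _ ⟨j, rfl⟩ _ ⟨k, rfl⟩
      obtain ⟨m, b1, b2⟩ := hd j k
      exact ⟨_, ⟨m, rfl⟩, b1.y' ζ, b2.y' ζ⟩
    · obtain ⟨j, hj⟩ := h2 β hβ
      obtain ⟨m, b1, b2⟩ := hd i j
      exact ⟨_, ⟨m, rfl⟩, hj.trans_le (b2.c.α.trans ((g m).y_D ζ (b1.c.D hi)).1.ge)⟩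
    · rintro _ ⟨j, rfl⟩
      rw [← a4]
      exact (g j).y_x (a1 j) ζ
  have hN : ∀ e ∈ X', ∀ v ∈ e.2, v ≤ N e := fun e he v hv => by
    obtain ⟨i, hi⟩ := (hE e he).L v hv
    exact ⟨subset_biUnion_of_mem (u := fun v : Lab => v.s) hv,
      ((g i).good.rk v hi).trans (h1 i).le, by rw [(hE e he).x v hv, ← a4]⟩
  have hG := good_lim hι g hd c.α h1 h2 c.t (fun i => (a1 i).t_sub) (N '' X')
    ((hX.union (c.D_sm.image _)).image _)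
    (by
      rintro _ ⟨e, he, rfl⟩
      refine ⟨rfl, c.f_t _, fun z hz z' hz' => ?_, fun z hz => ?_, fun β hβ => ?_⟩
      · obtain ⟨v, b1, b2⟩ := mem_iUnion₂.1 hz
        obtain ⟨v', b3, b4⟩ := mem_iUnion₂.1 hz'
        obtain ⟨v'', b5, b6, b7⟩ := (hE e he).dir v b1 v' b3
        obtain ⟨i, hi⟩ := (hE e he).L v'' b5
        exact (g i).good.fn v'' hi z (b6.1 b2) z' (b7.1 b4)
      · obtain ⟨v, b1, b2⟩ := mem_iUnion₂.1 hz
        exact ⟨v, mem_iUnion.2 ((hE e he).L v b1), hN e he v b1, b2⟩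
      · obtain ⟨v, b1, b2⟩ := (hE e he).cof β hβ
        exact ⟨v, mem_iUnion.2 ((hE e he).L v b1), hN e he v b1, b2⟩)
    fun hB => by
      obtain ⟨G, τ, b1, b2, b3⟩ := hs hB
      refine ⟨G, τ, b1, fun v => ?_, b3⟩
      obtain ⟨ζ, hζ⟩ := b2 v
      rw [← hζ.symm.trans (a4 ζ).symm |>.symm]
      exact c.f_t ζ
  have hy : ∀ ζ ∈ c.D, (ζ, range fun i => (g i).y ζ) ∈ X' := fun ζ h => Or.inr ⟨ζ, h, rfl⟩
  refine ⟨⟨c, _, fun ζ => if ζ ∈ c.D then N (ζ, range fun i => (g i).y ζ) else root, hG,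
    fun ζ => ?_, fun ζ h => by rw [if_pos h]; exact ⟨rfl, rfl⟩, fun ζ h => if_neg h⟩,
    fun i => ⟨a1 i, fun u => ⟨fun h => ⟨Or.inl (mem_iUnion.2 ⟨i, h⟩), (g i).good.rk u h⟩, ?_⟩,
      fun ζ h => ?_⟩, rfl, ?_, a5, fun e he => ⟨N e, Or.inr ⟨e, Or.inl he, rfl⟩, rfl, rfl,
        hN e (Or.inl he)⟩⟩
  · split_ifs with h
    exacts [Or.inr ⟨_, hy ζ h, rfl⟩, hG.root]
  · rintro ⟨h | ⟨e, -, rfl⟩, h'⟩
    · obtain ⟨j, hj⟩ := mem_iUnion.1 h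
      obtain ⟨m, b1, b2⟩ := hd i j
      exact (b1.L u).2 ⟨b2.L.sub hj, h'⟩
    · exact absurd (h1 i) (not_lt.2 h')
  · simp only [if_pos ((a1 i).D h)]
    exact hN _ (hy ζ ((a1 i).D h)) _ ⟨i, rfl⟩
  · rintro u (h | ⟨e, he, rfl⟩) h'
    · obtain ⟨j, hj⟩ := mem_iUnion.1 h
      exact absurd h' (((g j).good.rk u hj).trans_lt (h1 j)).ne
    · obtain ⟨i, hi⟩ := (hE e he).D
      exact ⟨i, e.1, hi, rfl⟩

theorem exists_sup {ι : Type*} (hι : Sm (Set.univ : Set ι)) (a : ι → O) (h : ∀ i, ∃ j, a i < a j) :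
    ∃ δ, (∀ i, a i < δ) ∧ ∀ β < δ, ∃ i, β < a i := by
  have := (hι.image a).small
  obtain ⟨b, hb⟩ := small_bound (a '' Set.univ)
  obtain ⟨δ, h1, h2⟩ := (wellFounded_lt (α := O)).has_min {δ | ∀ i, a i < δ}
    ⟨b, fun i => hb _ ⟨i, trivial, rfl⟩⟩
  refine ⟨δ, h1, fun β hβ => ?_⟩
  by_contra hc
  push Not at hc
  exact h2 β (fun i => let ⟨j, hj⟩ := h i; hj.trans_le (hc j)) hβ

theorem cond_lb (g : ℕ → Cond) (h : Antitone g) : ∃ r, ∀ n, r ≤ g n := by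
  have hd : ∀ i j, ∃ m, g m ≤ g i ∧ g m ≤ g j := fun i j =>
    ⟨max i j, h (le_max_left _ _), h (le_max_right _ _)⟩
  by_cases h0 : ∀ i, ∃ j, (g i).c.α < (g j).c.α
  · obtain ⟨δ, a1, a2⟩ := exists_sup (.of_countable countable_univ) _ h0
    obtain ⟨r, b, -⟩ := lim0 (.of_countable countable_univ) g hd δ a1 a2 ∅
      (.of_countable countable_empty) (fun _ h => h.elim) fun hB => by
        obtain ⟨γ, b1, b2⟩ := hB.2 _ a1
        obtain ⟨i, hi⟩ := a2 γ b1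
        exact absurd (b2 i) hi.not_gt
    exact ⟨r, b⟩
  push Not at h0
  obtain ⟨N, hN⟩ := h0
  obtain ⟨c, hc⟩ := Qc.lb (g := fun n => (g n).c) (.of_countable countable_univ)
    fun i j => let ⟨m, a, b⟩ := hd i j; ⟨m, a.c, b.c⟩
  have hL : ∀ n, (g n).L ⊆ (g N).L := fun n u hu =>
    ((h (le_max_right n N)).L u).2
      ⟨(h (le_max_left n N)).L.sub hu, ((g n).good.rk u hu).trans (hN n)⟩
  have : ∀ ζ, ∃ m, ∀ n, (g n).y ζ ≤ (g m).y ζ := fun ζ => by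
    by_cases h1 : ∃ m, ζ ∈ (g m).c.D
    · obtain ⟨m, hm⟩ := h1
      refine ⟨max m N, fun n => ((h (le_max_left n (max m N))).y' ζ).trans (Eq.ge ?_)⟩
      have e := h (le_max_right n (max m N))
      refine ((g _).good.cmp _ (e.L.sub ((g _).y_L ζ)) _ ((g _).y_L ζ) (e.y' ζ).1).2 ?_
      rw [((g (max m N)).y_D ζ ((h (le_max_left m N)).c.D hm)).1]
      exact ((g _).good.rk _ ((g _).y_L ζ)).trans ((hN _).trans (h (le_max_right m N)).c.α)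
    · exact ⟨0, fun n => by rw [(g n).y_root ζ fun h => h1 ⟨n, h⟩]; exact root_le _⟩
  choose m hm using this
  obtain ⟨r, -, -, -, b⟩ := jump (g N) (hc N) (fun ζ => (g (m ζ)).y ζ) fun ζ =>
    ⟨hL _ ((g _).y_L ζ), (g _).y_x (hc _) ζ⟩
  refine ⟨r, fun n => b _ (hc n) (fun u => ⟨fun a => ⟨hL n a, (g n).good.rk u a⟩, fun a => ?_⟩)
    (hN n) fun ζ _ => hm ζ n⟩
  exact ((h (le_max_left n N)).L u).2 ⟨(h (le_max_right n N)).L.sub a.1, a.2⟩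

theorem Run.anti' {x0 : Cond} {θ : O} {m n : O → Cond} (h : Run x0 θ m n) {i j : O} (hj : j < θ)
    (hij : i ≤ j) : m j ≤ m i := by
  rcases hij.eq_or_lt with rfl | hij
  · exact le_rfl
  · exact (h.le j hj i hij).trans (h.sep i (hij.trans hj)).1

theorem next {x0 : Cond} {θ : O} {m n : O → Cond} (h : Run x0 θ m n) (hθ : θ < kk) (Z : Set Cond)
    (hZ : Sm Z) : ∃ a ≤ x0, (∀ i < θ, a ≤ n i) ∧ (Order.IsSuccLimit θ →
      TopL (fun i : Iio θ => m i) a ∧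
      (∀ s ∈ a.c.t, (∃ u : ℕ → Iio θ, ∀ x ∈ s, ∃ k, x < (m (u k)).c.α) ∨
        ∃ i < θ, ∃ ζ ∈ (m i).c.D, s = a.c.f ζ) ∧
      ∀ u : ℕ → Cond, (∀ k, u k ∈ Z ∧ ∃ i < θ, (n i).c ≤ (u k).c ∧ (u k).L ⊆ (n i).L) →
        (∀ i j, ∃ k, u k ≤ u i ∧ u k ≤ u j) → (∀ β < a.c.α, ∃ k, β < (u k).c.α) → Bs a u) := by
  rcases Ordinal.zero_or_succ_or_isSuccLimit θ with rfl | ⟨i, rfl⟩ | hl
  · exact ⟨x0, le_rfl, fun _ h => absurd h not_lt_zero,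
      fun h => absurd h Order.not_isSuccLimit_bot⟩
  · have hi := Order.lt_succ i
    refine ⟨n i, (h.sep i hi).1.trans (h.le0 i hi), fun j hj => ?_,
      fun h => absurd h (Order.not_isSuccLimit_succ i)⟩
    rcases (Order.lt_succ_iff.1 hj).eq_or_lt with rfl | hj
    · exact le_rfl
    · exact (h.sep i hi).1.trans (h.le i hi j hj)
  have : Nonempty (Iio θ) := ⟨⟨0, hl.bot_lt⟩⟩
  have hι : Sm (Set.univ : Set (Iio θ)) :=
    (sm_Iio hθ).of_injOn Subtype.val (fun i _ => i.2) Subtype.val_injective.injOn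
  have hs : ∀ i < θ, m (i + 1) ≤ n i := fun i hi =>
    h.le _ (hl.succ_lt hi) i (Order.lt_add_one_iff.2 le_rfl)
  have hd : ∀ i j : Iio θ, ∃ k : Iio θ, m k ≤ m i ∧ m k ≤ m j := fun i j =>
    ⟨max i j, h.anti' (max i j).2 (le_max_left i j), h.anti' (max i j).2 (le_max_right i j)⟩
  obtain ⟨δ, a1, a2⟩ := exists_sup hι (fun i => (m i).c.α) fun i =>
    ⟨⟨i + 1, hl.succ_lt i.2⟩, (h.sep i i.2).2.1.trans_le (hs i i.2).c.α⟩
  let U : Set (ℕ → Cond) := {u | (∀ k, u k ∈ Z ∧ ∃ i < θ, (n i).c ≤ (u k).c ∧ (u k).L ⊆ (n i).L) ∧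
    (∀ i j, ∃ k, u k ≤ u i ∧ u k ≤ u j) ∧ ∀ β < δ, ∃ k, β < (u k).c.α}
  obtain ⟨a, b1, rfl, b3, b4, b5⟩ := lim0 hι (fun i => m i) hd δ a1 a2
    (⋃ u ∈ U, (fun ζ => (ζ, range fun k => (u k).y ζ)) '' ⋃ k, (u k).c.D)
    ((hZ.seqs.mono fun u hu k => (hu.1 k).1).biUnion fun u _ =>
      (Sm.iUnion fun k => (u k).c.D_sm).image _)
    (fun e he => by
      obtain ⟨u, hu, ζ, hζ, rfl⟩ := mem_iUnion₂.1 he
      obtain ⟨k, hk⟩ := mem_iUnion.1 hζ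
      refine ⟨?_, ?_, ?_, fun β hβ => ?_, ?_⟩
      · obtain ⟨i, c1, c2, -⟩ := (hu.1 k).2
        exact ⟨⟨i + 1, hl.succ_lt c1⟩, (hs i c1).c.D (c2.D hk)⟩
      · rintro _ ⟨j, rfl⟩
        obtain ⟨i, c1, -, c2⟩ := (hu.1 j).2
        exact ⟨⟨i + 1, hl.succ_lt c1⟩, (hs i c1).L.sub (c2 ((u j).y_L ζ))⟩
      · rintro _ ⟨i, rfl⟩ _ ⟨j, rfl⟩
        obtain ⟨k, c1, c2⟩ := hu.2.1 i j
        exact ⟨_, ⟨k, rfl⟩, c1.y' ζ, c2.y' ζ⟩
      · obtain ⟨j, hj⟩ := hu.2.2 β hβ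
        obtain ⟨i, c1, c2⟩ := hu.2.1 k j
        exact ⟨_, ⟨i, rfl⟩, hj.trans_le (c2.c.α.trans ((u i).y_D ζ (c1.c.D hk)).1.ge)⟩
      · rintro _ ⟨j, rfl⟩
        obtain ⟨i, c1, c2, -⟩ := (hu.1 j).2
        by_cases hj : ζ ∈ (u j).c.D
        · have c3 := (hs i c1).c.trans c2
          have c4 := union_f (g := fun i : Iio θ => (m i).c)
            (fun i j => let ⟨k, a, b⟩ := hd i j; ⟨k, a.c, b.c⟩)
            (j := ⟨i + 1, hl.succ_lt c1⟩) (c3.D hj)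
          change ((u j).y ζ).x = _ ∩ Iio ((u j).y ζ).r
          rw [(u j).y_x c3 ζ, ← c4, inter_assoc, inter_eq_right.2 (Iio_subset_Iio
            (((u j).y_D ζ hj).1.le.trans c3.α))]
        · change ((u j).y ζ).x = _ ∩ Iio ((u j).y ζ).r
          rw [(u j).y_root ζ hj]
          exact root_x _)
    fun _ => run_star h hl δ (fun i hi => a1 ⟨i, hi⟩) fun β hβ =>
      let ⟨i, hi⟩ := a2 β hβ; ⟨i, i.2, hi⟩
  refine ⟨a, (b1 ⟨0, hl.bot_lt⟩).trans (h.le0 0 hl.bot_lt), fun i hi =>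
    (b1 ⟨i + 1, hl.succ_lt hi⟩).trans (hs i hi), fun _ => ⟨⟨a2, b3⟩, fun s hs =>
      (b4 s hs).imp id fun ⟨i, hi⟩ => ⟨i, i.2, hi⟩, fun u c1 c2 c3 ζ => ?_⟩⟩
  by_cases hζ : ζ ∈ ⋃ k, (u k).c.D
  · obtain ⟨b, d1, d2, d3, d4⟩ := b5 _ (mem_iUnion₂.2 ⟨u, ⟨c1, c2, c3⟩, ζ, hζ, rfl⟩)
    obtain ⟨k, hk⟩ := mem_iUnion.1 hζ
    obtain ⟨i, e1, e2, -⟩ := (c1 k).2
    refine ⟨b, d1, fun c hc => ?_, fun k => d4 _ ⟨k, rfl⟩⟩
    rw [d2, d3]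
    exact hc.f ζ ((b1 ⟨i + 1, hl.succ_lt e1⟩).c.D ((hs i e1).c.D (e2.D hk)))
  · refine ⟨root, a.good.root, fun _ _ => root_x _, fun k => ?_⟩
    rw [(u k).y_root ζ fun h => hζ (mem_iUnion.2 ⟨k, h⟩)]

theorem SepC.exists_le {a b : Cond} (h : b ≤ a) : ∃ b' ≤ b, SepC a b' :=
  let ⟨q, h1, h2, h3⟩ := dense_sep b
  ⟨q, h1, h1.trans h, h.c.α.trans_lt h2, h3.mono h.c.D⟩

theorem run_simple (x0 : Cond) {θ : O} (hθ : θ < kk) (St : O → Cond → Cond → Prop)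
    (h1 : ∀ j a b b', b' ≤ b → St j a b → St j a b') (h2 : ∀ j < θ, ∀ a ≤ x0, ∃ b ≤ a, St j a b) :
    ∃ m n, Run x0 θ m n ∧ ∀ j < θ, St j (m j) (n j) := by
  have : Nonempty (Cond × Cond) := ⟨(x0, x0)⟩
  obtain ⟨g, hg⟩ := tdc (X := Cond × Cond) θ (fun j f x => x.1 ≤ x0 ∧ SepC x.1 x.2 ∧
    (∀ i, x.1 ≤ (f i).2) ∧ (Order.IsSuccLimit j → TopL (fun i => (f i).1) x.1) ∧ St j x.1 x.2)
    fun j hj g hg => by
      obtain ⟨a, a1, a2, a3⟩ := next (x0 := x0) (θ := j) (m := fun i => (g i).1)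
        (n := fun i => (g i).2) ⟨fun i hi => (hg i hi).1, fun i hi => (hg i hi).2.1,
          fun i hi k hk => (hg i hi).2.2.1 ⟨k, hk⟩, fun i hi => (hg i hi).2.2.2.1⟩ (hj.trans hθ) ∅
        (.of_countable countable_empty)
      obtain ⟨b, b1, b2⟩ := h2 j hj a a1
      obtain ⟨b', b3, b4⟩ := SepC.exists_le b1
      exact ⟨(a, b'), a1, b4, fun i => a2 i i.2, fun h => (a3 h).1, h1 _ _ _ _ b3 b2⟩
  exact ⟨fun i => (g i).1, fun i => (g i).2, ⟨fun i hi => (hg i hi).1, fun i hi => (hg i hi).2.1,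
    fun i hi k hk => (hg i hi).2.2.1 ⟨k, hk⟩, fun i hi => (hg i hi).2.2.2.1⟩,
    fun i hi => (hg i hi).2.2.2.2⟩

theorem meetS : MeetS := by
  intro x0 α S hS D h1 h2
  rcases S.eq_empty_or_nonempty with rfl | hne
  · exact ⟨x0, le_rfl, by simp⟩
  obtain ⟨e, he⟩ := hS.enum hne
  obtain ⟨m, n, a1, a2⟩ := run_simple x0 cord_lt_kk (fun j _ b => e j ∈ S → D (e j) b)
    (fun j _ b b' h H h' => h2 _ _ _ h (H h')) fun j _ a ha => by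
      by_cases h : e j ∈ S
      · obtain ⟨y, b1, b2⟩ := h1 _ h a ha
        exact ⟨y, b1, fun _ => b2⟩
      · exact ⟨a, le_rfl, fun h' => absurd h' h⟩
  obtain ⟨a, b1, b2, -⟩ := next a1 cord_lt_kk ∅ (.of_countable countable_empty)
  refine ⟨a, b1, fun j hj => ?_⟩
  obtain ⟨i, hi, rfl⟩ := he j hj
  exact h2 _ _ _ (b2 i hi) (a2 i hi hj)

theorem runS : RunS := by
  intro x0 St h1 h2
  obtain ⟨m, n, a1, a2⟩ := run_simple x0 omega1_lt_kk (fun _ => St) (fun _ => h1) fun _ _ => h2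
  obtain ⟨a, -, b2, b3⟩ := next a1 omega1_lt_kk ∅ (.of_countable countable_empty)
  refine ⟨m, n, a, a1, a2, b2, fun s hs =>
    ((b3 (Cardinal.isSuccLimit_omega 1)).2.1 s hs).imp (fun ⟨u, hu⟩ => ?_) id⟩
  obtain ⟨j, c1, c2⟩ := countable_bound (countable_range fun k => (u k).1)
    (by rintro _ ⟨k, rfl⟩; exact (u k).2)
  exact ⟨j, c1, fun x hx => let ⟨k, hk⟩ := hu x hx
    hk.trans_le (a1.anti' c1 (c2 _ ⟨k, rfl⟩).le).c.α⟩

noncomputable instance : Frame Cond where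
  top := Cond.top
  le_top := Cond.le_top
  supp p := Prod.fst '' p.c.l ∪ p.c.D
  supp_top := by simp [Cond.top, Qc.top]
  sm_supp p := p.c.sm_supp
  res := Cond.res
  supp_res q ξ := Qc.inX_iff.1 (q.c.inX_res ξ)
  le_res := Cond.le_res
  res_le _ _ _ h h' := Cond.res_le h (Qc.inX_iff.2 h')
  small ξ := by simpa only [← Qc.inX_iff] using small_cond ξ
  amalg _ _ _ h h' := amalg (Qc.inX_iff.2 h) h'
  lb := cond_lb
  meet := meetS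
  l p := p.c.l
  l_mono _ _ h := h.c.l
  l_lt q z hz := (q.c.l_lt z hz).2
  l_inj q z hz z' hz' e := (q.c.l_inj z hz z' hz' e).2
  dense_l q _ _ h :=
    let ⟨_, a1, γ, a2⟩ := q.c.dense_l h
    let ⟨r, b1, b2, _⟩ := lift_c q a1
    ⟨r, b1, γ, b2.l a2⟩

end Pool.Agent.P.MP_a5be26_lc.Sep

end
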