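import Pool.Agent.P.MP_a5be26_lc.Sep.B2

section

/-!
A branch through the labels decided by a name is bounded by a member of the tree.
-/

open Set Function Cardinal Ordinal

namespace Pool.Agent.P.MP_a5be26_lc.Sep

theorem bnd (hP : ∀ g : ℕ → Cc × Cond, Antitone g → ∃ r, ∀ n, r ≤ g n)
    (hα : ∀ (q : Cond) (β : O), β < kk → ∃ r ≤ q, β ≤ r.c.α) (π0 : Cc × Cond)
    (W : Cc × Cond → O × O → Prop) (hW : ∀ p q z, q ≤ p → W p z → W q z)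
    (hF : ∀ p ≤ π0, ∀ z z', W p z → W p z' → z.1 = z'.1 → z.2 = z'.2) {β : O} (hβ : β < kk) :
    ∃ π ≤ π0, ∃ z ∈ π.2.c.t, β ≤ π.2.c.α ∧
      (∀ ρ ≤ π, ∀ u ∈ ρ.2.L, (∀ e ∈ u.s, W ρ e) → ∀ η ∈ u.x, η < β → η ∈ z) ∧
      ∀ η ∈ z, η < β → ∀ ρ ≤ π, ∃ ρ' ≤ ρ, ∃ u ∈ ρ'.2.L, (∀ e ∈ u.s, W ρ' e) ∧ η ∈ u.x := by
  classical
  let Lv : Cc × Cond → Lab → Prop := fun ρ u => u ∈ ρ.2.L ∧ ∀ e ∈ u.s, W ρ e
  have mono : ∀ {ρ ρ' u}, ρ' ≤ ρ → Lv ρ u → Lv ρ' u := fun h hu =>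
    ⟨(Cond.le_def.1 h.2).L.sub hu.1, fun e he => hW _ _ e h (hu.2 e he)⟩
  have cmp : ∀ {ρ u v}, ρ ≤ π0 → Lv ρ u → Lv ρ v → u.r ≤ v.r → u ≤ v := fun h hu hv hr =>
    Good.le_of_rk (Cond.good _) hu.1 hv.1
      (fun z hz z' hz' e => hF _ h z z' (hu.2 z hz) (hv.2 z' hz') e) hr
  have sub : ∀ {ρ u v η}, ρ ≤ π0 → Lv ρ u → Lv ρ v → η ∈ u.x → η < v.r → η ∈ v.x :=
    fun {ρ u v η} h hu hv h1 h2 => by
      rcases le_total u.r v.r with c | c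
      · rw [(cmp h hu hv c).2.2] at h1
        exact h1.1
      · rw [(cmp h hv hu c).2.2]
        exact ⟨h1, h2⟩
  have hroot : ∀ ρ, Lv ρ root := fun ρ => ⟨ρ.2.good.root, fun e he => he.elim⟩
  have hαm : ∀ {ρ ρ' : Cc × Cond}, ρ' ≤ ρ → ρ.2.c.α ≤ ρ'.2.c.α := fun h =>
    (Qc.le_def.1 (Cond.le_def.1 h.2).c).α
  obtain ⟨r, hr, hrβ⟩ := hα π0.2 β hβ
  have h10 : (π0.1, r) ≤ π0 := ⟨le_rfl, hr⟩
  by_cases hA : ∃ ρ ≤ (π0.1, r), ∃ u, Lv ρ u ∧ β ≤ u.r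
  · obtain ⟨ρ, h1, u, hu, h2⟩ := hA
    refine ⟨ρ, h1.trans h10, u.x, ρ.2.good.xt u hu.1, hrβ.trans (hαm h1),
      fun ρ' h3 v hv hv' η a b => sub (h3.trans (h1.trans h10)) ⟨hv, hv'⟩ (mono h3 hu) a
        (b.trans_le h2), fun η a _ ρ' h3 => ⟨ρ', le_rfl, u, (mono h3 hu).1, (mono h3 hu).2, a⟩⟩
  have hS : ∃ δ : O, ∃ ρ ≤ (π0.1, r), ∀ ρ' ≤ ρ, ∀ u, Lv ρ' u → u.r < δ :=
    ⟨β, _, le_rfl, fun ρ' h u hu => not_le.1 fun c => hA ⟨ρ', h, u, hu, c⟩⟩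
  obtain ⟨δ, ⟨ρ0, h01, hlt⟩, hmin⟩ := (wellFounded_lt (α := O)).has_min
    {δ : O | ∃ ρ ≤ (π0.1, r), ∀ ρ' ≤ ρ, ∀ u, Lv ρ' u → u.r < δ} hS
  have h00 : ρ0 ≤ π0 := h01.trans h10
  have hδβ : δ ≤ β := not_lt.1 (hmin β
    ⟨_, le_rfl, fun ρ' h u hu => not_le.1 fun c => hA ⟨ρ', h, u, hu, c⟩⟩)
  have hβ0 : β ≤ ρ0.2.c.α := hrβ.trans (hαm h01)
  have cof : ∀ γ < δ, ∀ ρ ≤ ρ0, ∃ ρ' ≤ ρ, ∃ u, Lv ρ' u ∧ γ ≤ u.r := fun γ hγ ρ h => by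
    by_contra c
    exact hmin γ ⟨ρ, h.trans h01, fun ρ' a u hu => not_le.1 fun b => c ⟨ρ', a, u, hu, b⟩⟩ hγ
  have hpos : 0 < δ := hlt ρ0 le_rfl root (hroot _)
  by_cases hB : Big δ
  swap
  · have : ∃ d : ℕ → O, (∀ n, d n < δ) ∧ ∀ γ < δ, ∃ n, γ ≤ d n := by
      by_contra c
      refine hB ⟨hpos, fun d hd => ?_⟩
      by_contra c'
      refine c ⟨d, hd, fun γ hγ => ?_⟩
      by_contra c''
      exact c' ⟨γ, hγ, fun n => not_le.1 fun a => c'' ⟨n, a⟩⟩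
    obtain ⟨d, hd, hd'⟩ := this
    obtain ⟨π, hπ, hu⟩ := meet_countable hP ρ0 (countable_univ (α := ULift.{1} ℕ))
      (fun n ρ => ∃ u, Lv ρ u ∧ d n.down ≤ u.r) (fun n _ ρ h => cof _ (hd n.down) ρ h)
      fun n x y h ⟨u, a, b⟩ => ⟨u, mono h a, b⟩
    choose u hu hu' using fun n : ℕ => hu ⟨n⟩ trivial
    refine ⟨π, hπ.trans h00, ⋃ n, (u n).x, π.2.c.t_cl _ (fun n => (u n).r) (fun x hx => ?_)
      fun n => ?_, hβ0.trans (hαm hπ), fun ρ h v hv hv' η a _ => ?_, fun η a _ ρ h => ?_⟩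
    · obtain ⟨n, hn⟩ := mem_iUnion.1 hx
      exact ⟨n, (u n).x_sub hn⟩
    · have e : (⋃ n, (u n).x) ∩ Iio (u n).r = (u n).x := by
        refine Subset.antisymm (fun x hx => ?_)
          fun x hx => ⟨mem_iUnion.2 ⟨n, hx⟩, (u n).x_sub hx⟩
        obtain ⟨m, hm⟩ := mem_iUnion.1 hx.1
        exact sub (hπ.trans h00) (hu m) (hu n) hm hx.2
      rw [e]
      exact π.2.good.xt _ (hu n).1
    · obtain ⟨n, hn⟩ := hd' _ (hlt ρ (h.trans hπ) v ⟨hv, hv'⟩)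
      exact mem_iUnion.2 ⟨n, sub (h.trans (hπ.trans h00)) ⟨hv, hv'⟩ (mono h (hu n)) a
        ((show η < v.r from v.x_sub a).trans_le (hn.trans (hu' n)))⟩
    · obtain ⟨n, hn⟩ := mem_iUnion.1 a
      exact ⟨ρ, le_rfl, u n, (mono h (hu n)).1, (mono h (hu n)).2, hn⟩
  have cof' : ∀ γ < δ, ∀ ρ ≤ ρ0, ∃ ρ' ≤ ρ, ∃ u, Lv ρ' u ∧ γ < u.r := fun γ hγ ρ h => by
    obtain ⟨γ', a, b⟩ := hB.2 (fun _ => γ) fun _ => hγ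
    obtain ⟨ρ', c, u, hu, e⟩ := cof γ' a ρ h
    exact ⟨ρ', c, u, hu, (b 0).trans_le e⟩
  obtain ⟨g, τ, g1, g2, g3⟩ := ρ0.2.good.star δ (hδβ.trans hβ0) hB
  by_cases hC : ∃ ρ ≤ ρ0, ∃ z ∈ ρ0.2.c.t, ∀ ρ' ≤ ρ, ∀ u, Lv ρ' u → u.x = z ∩ Iio u.r
  · obtain ⟨π, hπ, z, hz, hz'⟩ := hC
    refine ⟨π, hπ.trans h00, z ∩ Iio δ,
      π.2.c.t_cut _ ((Qc.le_def.1 (Cond.le_def.1 hπ.2).c).t_sub hz) _, hβ0.trans (hαm hπ),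
      fun ρ h v hv hv' η a _ => ?_, fun η a _ ρ h => ?_⟩
    · rw [hz' ρ h v ⟨hv, hv'⟩] at a
      exact ⟨a.1, (show η < v.r from a.2).trans (hlt ρ (h.trans hπ) v ⟨hv, hv'⟩)⟩
    · obtain ⟨ρ', b, u, hu, c⟩ := cof' η a.2 ρ (h.trans hπ)
      refine ⟨ρ', b, u, hu.1, hu.2, ?_⟩
      rw [hz' ρ' (b.trans h) u hu]
      exact ⟨a.1, c⟩
  exfalso
  have step : ∀ x : {p : (Cc × Cond) × Lab // p.1 ≤ ρ0 ∧ Lv p.1 p.2},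
      ∃ y : {p : (Cc × Cond) × Lab // p.1 ≤ ρ0 ∧ Lv p.1 p.2}, y.1.1 ≤ x.1.1 ∧
        x.1.2.r < y.1.2.r ∧ g x.1.2.r < y.1.2.r ∧ y.1.2.x ≠ τ x.1.2 ∩ Iio y.1.2.r := by
    rintro ⟨⟨ρ, v⟩, h, hv⟩
    have : ∃ ρ' ≤ ρ, ∃ u, Lv ρ' u ∧ u.x ≠ τ v ∩ Iio u.r := by
      by_contra c
      refine hC ⟨ρ, h, τ v, g2 v, fun ρ' a u hu => ?_⟩
      by_contra b
      exact c ⟨ρ', a, u, hu, b⟩
    obtain ⟨ρ1, a1, u, hu, a2⟩ := this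
    have hv' : v.r < δ := hlt ρ h v hv
    obtain ⟨ρ2, b1, w, hw, b2⟩ := cof' (max (max v.r (g v.r)) u.r)
      (max_lt (max_lt hv' (g1 _ hv')) (hlt ρ1 (a1.trans h) u hu)) ρ1 (a1.trans h)
    rw [max_lt_iff, max_lt_iff] at b2
    refine ⟨⟨(ρ2, w), b1.trans (a1.trans h), hw⟩, b1.trans a1, b2.1.1, b2.1.2, fun e => a2 ?_⟩
    have c := (cmp (b1.trans (a1.trans (h.trans h00))) (mono b1 hu) hw b2.2.le).2.2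
    have e' : w.x = τ v ∩ Iio w.r := e
    rw [c, e', inter_assoc, inter_eq_right.2 (Iio_subset_Iio b2.2.le)]
  choose s s1 s2 s3 s4 using step
  let G : ℕ → {p : (Cc × Cond) × Lab // p.1 ≤ ρ0 ∧ Lv p.1 p.2} :=
    fun n => Nat.rec ⟨(ρ0, root), le_rfl, hroot _⟩ (fun _ x => s x) n
  obtain ⟨π, hπ⟩ := hP (fun n => (G n).1.1) (antitone_nat_of_succ_le fun n => s1 (G n))
  have hπ0 : π ≤ ρ0 := hπ 0
  have hr' : ∀ n, (G n).1.2.r < δ := fun n => hlt _ (G n).2.1 _ (G n).2.2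
  obtain ⟨γ, c1, c2⟩ := hB.2 (fun n => (G n).1.2.r) hr'
  obtain ⟨ρ, d1, w, hw, d2⟩ := cof γ c1 π hπ0
  have hρ : ρ ≤ ρ0 := d1.trans hπ0
  have hG : ∀ n, Lv ρ (G n).1.2 := fun n => mono (d1.trans (hπ n)) (G n).2.2
  have back : ∀ u ∈ ρ.2.L, u.r < δ → u ∈ ρ0.2.L := fun u a b =>
    ((Cond.le_def.1 hρ.2).L u).2 ⟨a, b.le.trans (hδβ.trans hβ0)⟩
  have hsub : (⋃ n, (G n).1.2.s) ⊆ w.s := iUnion_subset fun n =>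
    (cmp (hρ.trans h00) (hG n) hw ((c2 n).le.trans d2)).1
  obtain ⟨u, e1, e2⟩ := ρ.2.good.down w hw.1 (⋃ n, (G n).1.2.s) (fun z hz b hb => by
    obtain ⟨n, hn⟩ := mem_iUnion.1 hz
    obtain ⟨c, hc⟩ := ρ.2.good.dn _ (hG n).1 z hn b hb
    exact ⟨c, mem_iUnion.2 ⟨n, hc⟩⟩) hsub
  have e3 : u.r < δ :=
    (ρ.2.good.cmp u e1 w hw.1 (e2 ▸ hsub)).1.2.1.trans_lt (hlt ρ hρ w hw)
  obtain ⟨n, hn⟩ := g3 u (back u e1 e3) e3 (fun n => (G n).1.2)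
    ⟨fun n => back _ (hG n).1 (hr' n), fun n => s2 (G n), e2⟩ fun n => s3 (G n)
  exact s4 (G n) hn

end Pool.Agent.P.MP_a5be26_lc.Sep

end

section

/-!
Every name of a branch is a branch of labels.
-/

open Set Function Cardinal Ordinal

namespace Pool.Agent.P.MP_a5be26_lc.Sep

theorem onto_cut {s : Set O} {a β : O} (h : β ≤ a) : s ∩ Iio a ∩ Iio β = s ∩ Iio β := by
  rw [inter_assoc, inter_eq_right.2 (Iio_subset_Iio h)]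

theorem onto (hm : MeetS) (hr : RunS)
    (hl : ∀ q : Cond, ∀ X ∈ q.c.t, ∃ q' ≤ q, ∃ u ∈ q'.L, u.x = X) (π0 : Cc × Cond)
    (A : Cc × Cond → O → Set O → Prop) (hA : ∀ p q β z, q ≤ p → A p β z → A q β z)
    (hcut : ∀ p β β' z, β' ≤ β → A p β z → A p β' z)
    (huniq : ∀ p ≤ π0, ∀ β z z', A p β z → A p β z' → z ∩ Iio β = z' ∩ Iio β)
    (htot : ∀ p ≤ π0, ∀ β < kk, ∃ p' ≤ p, ∃ z ∈ p'.2.c.t, A p' β z) :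
    ∃ π ≤ π0, ∃ lab : Cond → Lab, (∀ q ≤ π.2, lab q ∈ q.L) ∧
      (∀ q ≤ π.2, ∀ q' ≤ q, lab q ≤ lab q') ∧
      (∀ q ≤ π.2, ∀ u ∈ q.L, (∀ z ∈ u.s, ∃ q' ≤ q, z ∈ (lab q').s) → u ≤ lab q) ∧
      ∀ ρ ≤ π, ∀ β ≤ ρ.2.c.α, ∀ z, A ρ β z → z ∩ Iio β = (lab ρ.2).x ∩ Iio β := by
  by_contra hc
  have h0 : ∀ π ≤ π0, ∀ lab : Cond → Lab, (∀ q ≤ π.2, lab q ∈ q.L) →
      (∀ q ≤ π.2, ∀ q' ≤ q, lab q ≤ lab q') →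
      (∀ q ≤ π.2, ∀ u ∈ q.L, (∀ z ∈ u.s, ∃ q' ≤ q, z ∈ (lab q').s) → u ≤ lab q) →
      ∃ ρ ≤ π, ∃ β ≤ ρ.2.c.α, ∃ z, A ρ β z ∧ z ∩ Iio β ≠ (lab ρ.2).x ∩ Iio β := by
    intro π hπ lab a1 a2 a3
    by_contra a4
    refine hc ⟨π, hπ, lab, a1, a2, a3, fun ρ hρ β hβ z hz => ?_⟩
    by_contra a5
    exact a4 ⟨ρ, hρ, β, hβ, z, hz, a5⟩
  have h1 : ∀ π ≤ π0, ∀ ζ ∈ π.2.c.D,
      ∃ ρ ≤ π, ∃ β ≤ ρ.2.c.α, ∃ z, A ρ β z ∧ z ∩ Iio β ≠ ρ.2.c.f ζ ∩ Iio β := by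
    intro π hπ ζ hζ
    obtain ⟨ρ, a1, β, a2, z, a3, a4⟩ := h0 π hπ (fun q => q.y ζ) (fun q _ => q.y_L ζ)
      (fun q _ q' h => Cond.Le.y' h ζ) fun q hq u hu h => q.good.le_of_rk hu (q.y_L ζ)
        (fun z hz z' hz' e => by
          obtain ⟨q', b1, b2⟩ := h z hz
          exact q'.good.fn _ (q'.y_L ζ) z b2 z' ((Cond.Le.y' b1 ζ).1 hz') e)
        ((q.good.rk u hu).trans (q.y_D ζ (hq.c.D hζ)).1.ge)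
    exact ⟨ρ, a1, β, a2, z, a3, (ρ.2.y_D ζ (a1.2.c.D hζ)).2 ▸ a4⟩
  have h2 : ∀ π ≤ π0, ∀ X ∈ π.2.c.t,
      ∃ ρ ≤ π, ∃ β ≤ ρ.2.c.α, ∃ z, A ρ β z ∧ z ∩ Iio β ≠ X ∩ Iio β := by
    intro π hπ X hX
    obtain ⟨q', b1, u, b2, rfl⟩ := hl π.2 X hX
    have b3 : (π.1, q') ≤ π := ⟨le_rfl, b1⟩
    obtain ⟨ρ, a1, β, a2, z, a3, a4⟩ := h0 (π.1, q') (b3.trans hπ) (fun _ => u)
      (fun q hq => hq.L.sub b2) (fun _ _ _ _ => le_rfl) fun q hq v hv h =>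
        (q.good.cmp v hv u (hq.L.sub b2) fun z hz => let ⟨_, _, e⟩ := h z hz; e).1
    exact ⟨ρ, a1.trans b3, β, a2, z, a3, a4⟩
  have h3 : ∀ p ≤ π0, ∀ b < kk,
      ∃ ρ ≤ p, ∃ β ≤ ρ.2.c.α, ∃ z, A ρ β z ∧ ∃ η ∈ z, b ≤ η ∧ η < β := by
    intro p hp b hb
    obtain ⟨p', b1, X, b2, b3⟩ := htot p hp b hb
    obtain ⟨ρ, a1, β, a2, z, a3, a4⟩ := h2 p' (b1.trans hp) _ (p'.2.c.t_cut X b2 b)
    refine ⟨ρ, a1.trans b1, β, a2, z, a3, ?_⟩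
    by_contra a5
    have a6 := huniq ρ (a1.trans (b1.trans hp)) (min b β) z X
      (hcut _ _ _ _ (min_le_right _ _) a3) (hcut _ _ _ _ (min_le_left _ _) (hA _ _ _ _ a1 b3))
    refine a4 ?_
    rw [inter_assoc, Iio_inter_Iio, ← a6]
    ext η
    refine ⟨fun h => ⟨h.1, lt_min (not_le.1 fun e => a5 ⟨η, h.1, e, h.2⟩) h.2⟩,
      fun h => ⟨h.1, Iio_subset_Iio (min_le_right b β) h.2⟩⟩
  let D1 : Cc × O → Cond → Prop := fun j b => ∃ a' ≤ j.1, j.2 ∈ b.c.D ∧ ∃ β ≤ b.c.α, ∃ z,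
    A (a', b) β z ∧ z ∩ Iio β ≠ b.c.f j.2 ∩ Iio β
  let D2 : O → Cc → Cond → Prop := fun c j b => ∃ a' ≤ j, ∃ β ≤ b.c.α, ∃ z,
    A (a', b) β z ∧ ∃ η ∈ z, c ≤ η ∧ η < β
  have m1 : ∀ j x y, y ≤ x → D1 j x → D1 j y := by
    rintro j x y h ⟨a', a1, a2, β, a3, z, a4, a5⟩
    refine ⟨a', a1, h.c.D a2, β, a3.trans h.c.α, z, hA (a', x) (a', y) _ _ ⟨le_rfl, h⟩ a4, ?_⟩
    rwa [h.c.f _ a2, onto_cut a3] at a5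
  have m2 : ∀ c j x y, y ≤ x → D2 c j x → D2 c j y := by
    rintro c j x y h ⟨a', a1, β, a3, z, a4, a5⟩
    exact ⟨a', a1, β, a3.trans h.c.α, z, hA (a', x) (a', y) _ _ ⟨le_rfl, h⟩ a4, a5⟩
  have sm : Sm (Iic π0.1) := sm_Cc.mono (subset_univ _)
  obtain ⟨m, n, a, r1, r2, r3, r4⟩ := hr π0.2
    (fun a b => ∀ a0 ≤ π0.1, (∀ ζ ∈ a.c.D, D1 (a0, ζ) b) ∧ D2 a.c.α a0 b)
    (fun a b b' h hs a0 ha => ⟨fun ζ hζ => m1 _ _ _ h ((hs a0 ha).1 ζ hζ), m2 _ _ _ _ h (hs a0 ha).2⟩)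
    (fun a ha => by
      obtain ⟨y1, c1, c2⟩ := hm a (Cc × O) _ (sm.prod a.c.D_sm) D1 (fun j hj x hx => by
        obtain ⟨ρ, a1, β, a2, z, a3, a4⟩ := h1 (j.1, x) ⟨hj.1, hx.trans ha⟩ j.2 (hx.c.D hj.2)
        exact ⟨ρ.2, a1.2, ρ.1, a1.1, a1.2.c.D (hx.c.D hj.2), β, a2, z, a3, a4⟩) m1
      obtain ⟨y2, c3, c4⟩ := hm y1 Cc _ sm (D2 a.c.α) (fun j hj x hx => by
        obtain ⟨ρ, a1, β, a2, z, a3, a4⟩ := h3 (j, x) ⟨hj, hx.trans (c1.trans ha)⟩ _ a.c.α_lt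
        exact ⟨ρ.2, a1.2, ρ.1, a1.1, β, a2, z, a3, a4⟩) (m2 _)
      exact ⟨y2, c3.trans c1, fun a0 h0 =>
        ⟨fun ζ hζ => m1 _ _ _ c3 (c2 (a0, ζ) ⟨h0, hζ⟩), c4 a0 h0⟩⟩)
  have w0 : (0 : O) < ω₁ := omega_pos 1
  have e0 : a ≤ π0.2 := (r3 0 w0).trans ((r1.sep 0 w0).1.trans (r1.le0 0 w0))
  have e1 : (π0.1, a) ≤ π0 := ⟨le_rfl, e0⟩
  obtain ⟨p, b1, z, b2, b3⟩ := htot _ e1 _ a.c.α_lt
  have key : ∀ j < ω₁, ∀ a' ≤ p.1, ∀ β ≤ (n j).c.α, ∀ z', A (a', n j) β z' →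
      z ∩ Iio β = z' ∩ Iio β := fun j hj a' ha β hβ z' hz =>
    have e2 : (a', p.2) ≤ p := ⟨ha, le_rfl⟩
    huniq (a', p.2) (e2.trans (b1.trans e1)) β z z'
      (hcut _ _ _ _ (hβ.trans (r3 j hj).c.α) (hA _ _ _ _ e2 b3))
      (hA (a', n j) _ _ _ ⟨le_rfl, b1.2.trans (r3 j hj)⟩ hz)
  rcases r4 _ (b1.2.c.cut b2) with ⟨j, hj, h⟩ | ⟨j, hj, ζ, hζ, h⟩
  · obtain ⟨a', a1, β, a2, z', a3, η, a4, a5, a6⟩ := (r2 j hj p.1 b1.1).2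
    have a7 : η ∈ z ∩ Iio β := key j hj a' a1 β a2 z' a3 ▸ ⟨a4, a6⟩
    exact a5.not_gt (h ⟨a7.1, a6.trans_le (a2.trans (r3 j hj).c.α)⟩)
  · obtain ⟨a', a1, a2, β, a3, z', a4, a5⟩ := (r2 j hj p.1 b1.1).1 ζ hζ
    refine a5 ?_
    rw [← key j hj a' a1 β a3 z' a4, (r3 j hj).c.f _ a2, onto_cut a3, ← h,
      onto_cut (a3.trans (r3 j hj).c.α)]

end Pool.Agent.P.MP_a5be26_lc.Sep

end

section

/-!
A countably closed system of side conditions attached to one master condition.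
-/

open Set Function Cardinal Ordinal

namespace Pool.Agent.P.MP_a5be26_lc.Sep

variable {ξ : O} {fl : Prop}

/-- the master `y` is attached to the side condition `r` -/
def Ms (ξ : O) (fl : Prop) (y r : Cond) : Prop := y ≤ r.res ξ ∧ (fl → y.c ≤ r.c)

/-- the order of the side conditions -/
def Sle (ξ : O) (fl : Prop) (r' r : Cond) : Prop := r'.c ≤ r.c ∧ r' ≤ r.res ξ ∧ (fl → r' ≤ r)

theorem Ms.mono {y y' r : Cond} (h : Ms ξ fl y r) (h' : y' ≤ y) : Ms ξ fl y' r :=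
  ⟨h'.trans h.1, fun f => h'.c.trans (h.2 f)⟩

theorem Ms.of_le {y r : Cond} (h : y ≤ r) : Ms ξ fl y r := ⟨h.trans (r.le_res ξ), fun _ => h.c⟩

theorem Sle.of_le {r' r : Cond} (h : r' ≤ r) : Sle ξ fl r' r :=
  ⟨h.c, h.trans (r.le_res ξ), fun _ => h⟩

theorem Sle.trans {a b c : Cond} (h : Sle ξ fl a b) (h' : Sle ξ fl b c) : Sle ξ fl a c :=
  ⟨h.1.trans h'.1, h.2.1.trans (Cond.res_le_res h'.2.1), fun f => (h.2.2 f).trans (h'.2.2 f)⟩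

theorem swap_le {p q : Cond} (h1 : p.c ≤ q.c) (h2 : p ≤ q.res ξ) :
    ∃ r ≤ q, r.c ≤ p.c ∧ r ≤ p.res ξ := by
  obtain ⟨r, a1, a2, a3⟩ := swap p le_rfl ξ q.y fun ζ => ⟨h2.L.sub (q.y_L ζ), q.y_x h1 ζ⟩
  exact ⟨r, a3 q h1 h2 fun _ => le_rfl, a1, a2⟩

theorem base_side {y q0 : Cond} (h0 : y ≤ q0) {u : ℕ → Cond} (h1 : ∀ k, Ms ξ fl y (u k))
    (h2 : ∀ k, u k ≤ q0) (h3 : ∀ i j, ∃ k, Sle ξ fl (u k) (u i) ∧ Sle ξ fl (u k) (u j))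
    (h4 : fl → Bs y u) : ∃ r ≤ q0, (∀ k, Sle ξ fl r (u k)) ∧ Ms ξ fl r y := by
  by_cases f : fl
  · choose b b1 b2 b3 using h4 f
    obtain ⟨r, a1, a2, a3⟩ := swap y le_rfl ξ b fun ζ => ⟨b1 ζ, b2 ζ _ le_rfl⟩
    have : ∀ k, r ≤ u k := fun k => a3 _ ((h1 k).2 f) (h1 k).1 fun ζ => b3 ζ k
    exact ⟨r, (this 0).trans (h2 0), fun k => .of_le (this k), a2, fun _ => a1⟩
  · obtain ⟨s, a1, a2, -⟩ := Qc.amalg (y.c.inX_res ξ) (g := fun k => (u k).c)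
      (fun i j => let ⟨k, a, b⟩ := h3 i j; ⟨k, a.1, b.1⟩) fun k => (Cond.res_le_res (h1 k).1).c
    have a3 := (a2 0).trans (h2 0).c
    obtain ⟨r, b1, b2, b3⟩ := swap (y.res ξ) a1 ξ q0.y fun ζ => ⟨h0.L.sub (q0.y_L ζ), q0.y_x a3 ζ⟩
    have b4 : r ≤ y.res ξ := b2.trans (Cond.res_le_res le_rfl)
    exact ⟨r, b3 q0 a3 (Cond.res_mono h0 ξ) fun _ => le_rfl, fun k => ⟨b1.trans (a2 k),
      b4.trans (Cond.res_le_res (h1 k).1), fun f' => absurd f' f⟩, b4, fun f' => absurd f' f⟩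

theorem new_master {y r s : Cond} (h : Ms ξ fl r y) {q : Bool → Cond} (h1 : ∀ i, q i ≤ r)
    (h2 : ∀ i, Ms ξ fl s (q i)) : ∃ y' ≤ y, ∀ i, Ms ξ fl y' (q i) := by
  have h3 : s ≤ y.res ξ := (h2 true).1.trans (Cond.res_le_res ((h1 true).trans h.1))
  by_cases f : fl
  · obtain ⟨y', a1, a2, a3⟩ := swap_le (((h2 true).2 f).trans ((h1 true).c.trans (h.2 f))) h3
    exact ⟨y', a1, fun i => ⟨a3.trans (Cond.res_le_res (h2 i).1), fun _ => a2.trans ((h2 i).2 f)⟩⟩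
  · obtain ⟨y', a1, a2⟩ := amalg (r := s.res ξ) (s.c.inX_res ξ) (Cond.res_le_res h3)
    exact ⟨y', a2, fun i => ⟨a1.trans (Cond.res_le_res (h2 i).1), fun f' => absurd f' f⟩⟩

/-- side conditions with their stages -/
structure Sd (ξ : O) (fl : Prop) : Type 1 where
  j : O
  r : Cond

instance : Preorder (Sd ξ fl) where
  le a b := a = b ∨ (b.j < a.j ∧ Sle ξ fl a.r b.r)
  le_refl _ := Or.inl rfl
  le_trans a b c h h' := by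
    rcases h with rfl | h
    · exact h'
    rcases h' with rfl | h'
    exacts [Or.inr h, Or.inr ⟨h'.1.trans h.1, h.2.trans h'.2⟩]

theorem Sd.sle {a b : Sd ξ fl} (h : a ≤ b) : Sle ξ fl a.r b.r := by
  rcases h with rfl | h
  exacts [.of_le le_rfl, h.2]

/-- one stage of the construction -/
structure Stage (ξ : O) (fl : Prop) (a0 : Cc) (q0 : Cond) (Pay : Cc → O → (Bool → Cond) → Prop)
    (j : O) (f : Iio j → Cond × Cond × Set Cond) (x : Cond × Cond × Set Cond) : Prop where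
  le0 : x.1 ≤ q0
  sep : SepC x.1 x.2.1
  le : ∀ i, x.1 ≤ (f i).2.1
  top : Order.IsSuccLimit j → TopL (fun i => (f i).1) x.1
  bs : Order.IsSuccLimit j → ∀ u : ℕ → Cond,
    (∀ k, u k ∈ insert q0 (⋃ i, (f i).2.2) ∧
      ∃ i : Iio j, (f i).2.1.c ≤ (u k).c ∧ (u k).L ⊆ (f i).2.1.L) →
    (∀ i j, ∃ k, u k ≤ u i ∧ u k ≤ u j) → (∀ β < x.1.c.α, ∃ k, β < (u k).c.α) → Bs x.1 u
  sm : Sm x.2.2
  att : ∀ r ∈ x.2.2, Ms ξ fl x.2.1 r ∧ r ≤ q0 ∧ x.1.c.α ≤ r.c.α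
  step : ∀ u : ℕ → Cond, (∀ k, u k ∈ insert q0 (⋃ i, (f i).2.2)) →
    (∀ i j, ∃ k, Sle ξ fl (u k) (u i) ∧ Sle ξ fl (u k) (u j)) → (fl → Bs x.1 u) →
    ∀ a ≤ a0, ∃ a' ≤ a, ∃ η < kk, ∃ q, Pay a' η q ∧ ∀ i, q i ∈ x.2.2 ∧ ∀ k, Sle ξ fl (q i) (u k)

variable {a0 : Cc} {q0 : Cond} {Pay : Cc → O → (Bool → Cond) → Prop}

theorem stage_run {θ : O} {g : O → Cond × Cond × Set Cond}
    (hg : ∀ i < θ, Stage ξ fl a0 q0 Pay i (fun k => g k) (g i)) :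
    Run q0 θ (fun i => (g i).1) fun i => (g i).2.1 :=
  ⟨fun i hi => (hg i hi).le0, fun i hi => (hg i hi).sep, fun i hi k hk => (hg i hi).le ⟨k, hk⟩,
    fun i hi => (hg i hi).top⟩

theorem exists_stage (hd : ∀ a ≤ a0, ∀ r ≤ q0, ∃ a' ≤ a, ∃ η < kk, ∃ q : Bool → Cond,
      (∀ i, q i ≤ r) ∧ Pay a' η q ∧ ∃ s, ∀ i, Ms ξ fl s (q i))
    {j : O} (hj : j < kk) (g : O → Cond × Cond × Set Cond)
    (hg : ∀ i < j, Stage ξ fl a0 q0 Pay i (fun k => g k) (g i)) :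
    ∃ x, Stage ξ fl a0 q0 Pay j (fun k => g k) x := by
  have hZ : Sm (insert q0 (⋃ i : Iio j, (g i).2.2)) := by
    refine Sm.insert ?_ _
    simpa using (sm_Iio hj).biUnion fun i hi => (hg i hi).sm
  obtain ⟨m, a1, a2, a3⟩ := next (stage_run hg) hj _ hZ
  have hM : ∀ r ∈ insert q0 (⋃ i : Iio j, (g i).2.2), Ms ξ fl m r ∧ r ≤ q0 := by
    rintro r (rfl | hr)
    · exact ⟨.of_le a1, le_rfl⟩
    · obtain ⟨i, hi⟩ := mem_iUnion.1 hr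
      exact ⟨((hg i i.2).att r hi).1.mono (a2 i i.2), ((hg i i.2).att r hi).2.1⟩
  have hT := hZ.seqs.prod (sm_Cc.mono (subset_univ (Iic a0)))
  obtain ⟨y, b1, b2⟩ := meetS m _ _ hT
    (fun z y => ∃ q : Bool → Cond,
      (∀ i j, ∃ k, Sle ξ fl (z.1 k) (z.1 i) ∧ Sle ξ fl (z.1 k) (z.1 j)) → (fl → Bs m z.1) →
      (∃ a' ≤ z.2, ∃ η < kk, Pay a' η q) ∧
        ∀ i, (∀ k, Sle ξ fl (q i) (z.1 k)) ∧ Ms ξ fl y (q i) ∧ q i ≤ q0 ∧ m.c.α ≤ (q i).c.α)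
    (fun z hz y hy => by
      by_cases h : (∀ i j, ∃ k, Sle ξ fl (z.1 k) (z.1 i) ∧ Sle ξ fl (z.1 k) (z.1 j)) ∧
        (fl → Bs m z.1)
      · obtain ⟨r, c1, c2, c3⟩ := base_side (hy.trans a1) (fun k => (hM _ (hz.1 k)).1.mono hy)
          (fun k => (hM _ (hz.1 k)).2) h.1 fun f => (h.2 f).mono hy
        obtain ⟨a', c4, η, c5, q, c6, c7, s, c8⟩ := hd z.2 hz.2 r c1
        obtain ⟨y', d1, d2⟩ := new_master c3 c6 c8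
        exact ⟨y', d1, q, fun _ _ => ⟨⟨a', c4, η, c5, c7⟩, fun i =>
          ⟨fun k => (Sle.of_le (c6 i)).trans (c2 k), d2 i, (c6 i).trans c1,
            hy.c.α.trans (((c6 i).trans c3.1).c.α)⟩⟩⟩
      · exact ⟨y, le_rfl, fun _ => y, fun h1 h2 => absurd ⟨h1, h2⟩ h⟩)
    fun z y y' h ⟨q, H⟩ => ⟨q, fun h1 h2 => ⟨(H h1 h2).1, fun i =>
      ⟨((H h1 h2).2 i).1, ((H h1 h2).2 i).2.1.mono h, ((H h1 h2).2 i).2.2⟩⟩⟩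
  have : Nonempty (Bool → Cond) := ⟨fun _ => q0⟩
  choose! q hq using b2
  obtain ⟨n, c1, c2⟩ := SepC.exists_le b1
  let T : Set ((ℕ → Cond) × Cc) := {z | (z ∈ {u : ℕ → Cond | ∀ n, u n ∈
    insert q0 (⋃ i : Iio j, (g i).2.2)} ×ˢ Iic a0) ∧
      (∀ i j, ∃ k, Sle ξ fl (z.1 k) (z.1 i) ∧ Sle ξ fl (z.1 k) (z.1 j)) ∧ (fl → Bs m z.1)}
  refine ⟨(m, n, ⋃ z ∈ T, range (q z)), a1, c2, fun i => a2 i i.2, fun h => (a3 h).1,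
    fun h u h1 => (a3 h).2.2 u fun k => ⟨(h1 k).1, let ⟨i, hi⟩ := (h1 k).2; ⟨i, i.2, hi⟩⟩,
    (hT.mono fun z hz => hz.1).biUnion fun z _ => .of_countable (countable_range _),
    fun r hr => ?_, fun u h1 h2 h3 a h4 => ?_⟩
  · obtain ⟨z, hz, i, rfl⟩ := mem_iUnion₂.1 hr
    have := ((hq z hz.1 hz.2.1 hz.2.2).2 i).2
    exact ⟨this.1.mono c1, this.2⟩
  · obtain ⟨⟨a', d1, η, d2, d3⟩, d4⟩ := hq (u, a) ⟨h1, h4⟩ h2 h3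
    exact ⟨a', d1, η, d2, _, d3, fun i =>
      ⟨mem_iUnion₂.2 ⟨(u, a), ⟨⟨h1, h4⟩, h2, h3⟩, i, rfl⟩, (d4 i).1⟩⟩

theorem sys (hd : ∀ a ≤ a0, ∀ r ≤ q0, ∃ a' ≤ a, ∃ η < kk, ∃ q : Bool → Cond,
      (∀ i, q i ≤ r) ∧ Pay a' η q ∧ ∃ s, ∀ i, Ms ξ fl s (q i)) :
    ∃ c ≤ q0, ∃ δ < kk, ∃ R : Set (Sd ξ fl), ⟨0, q0⟩ ∈ R ∧ (∀ y ∈ R, c ≤ y.r.res ξ ∧ y.r ≤ q0) ∧
      (∀ g : ℕ → Sd ξ fl, (∀ n, g n ∈ R) → (∀ i j, ∃ m, g m ≤ g i ∧ g m ≤ g j) →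
        ∃ y ∈ R, ∀ n, y ≤ g n) ∧
      ∀ y ∈ R, ∀ a ≤ a0, ∃ a' ≤ a, ∃ η < δ, ∃ q, Pay a' η q ∧
        ∀ i, ∃ y' ∈ R, y' ≤ y ∧ y'.r = q i := by
  have : Nonempty (Cond × Cond × Set Cond) := ⟨(q0, q0, ∅)⟩
  obtain ⟨g, hg⟩ := tdc ω₁ (Stage ξ fl a0 q0 Pay) fun j hj =>
    exists_stage hd (hj.trans omega1_lt_kk)
  have hr := stage_run hg
  obtain ⟨c, a1, a2, -⟩ := next hr omega1_lt_kk ∅ (.of_countable countable_empty)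
  let R : Set (Sd ξ fl) := insert ⟨0, q0⟩ (⋃ j ∈ Iio (ω₁ : O), (fun r => ⟨j + 1, r⟩) '' (g j).2.2)
  have h0 : (0 : O) < ω₁ := omega0_pos.trans omega0_lt_omega_one
  have hR : ∀ y ∈ R, y.j < ω₁ ∧ y.r ≤ q0 ∧ (∀ j, y.j ≤ j → y.r ∈ insert q0 (⋃ i : Iio j, (g i).2.2)) ∧
      (∀ j < ω₁, y.j ≤ j + 1 → Ms ξ fl (g j).2.1 y.r) ∧ ∀ j < y.j, (g j).1.c.α ≤ y.r.c.α := by
    rintro y (rfl | hy)
    · exact ⟨h0, le_rfl, fun _ _ => Or.inl rfl,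
        fun j hj _ => .of_le ((hg j hj).sep.1.trans (hg j hj).le0), fun _ h => absurd h not_lt_zero⟩
    obtain ⟨i, hi, r, hr', rfl⟩ := mem_iUnion₂.1 hy
    have b := (hg i hi).att r hr'
    refine ⟨omega1_succ hi, b.2.1, fun j hj => Or.inr (mem_iUnion.2
      ⟨⟨i, Order.add_one_le_iff.1 hj⟩, hr'⟩), fun j hj h => ?_, fun j hj =>
      (hr.anti' hi (Order.lt_add_one_iff.1 hj)).c.α.trans b.2.2⟩
    rcases (Order.lt_add_one_iff.1 (Order.add_one_le_iff.1 h)).eq_or_lt with rfl | h'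
    exacts [b.1, b.1.mono ((hg j hj).sep.1.trans (hr.le j hj i h'))]
  have hM : ∀ y ∈ R, Ms ξ fl (g y.j).1 y.r := by
    rintro y (rfl | hy)
    · exact .of_le (hg 0 h0).le0
    obtain ⟨i, hi, r, hr', rfl⟩ := mem_iUnion₂.1 hy
    exact ((hg i hi).att r hr').1.mono (hr.le _ (omega1_succ hi) i (Order.lt_add_one_iff.2 le_rfl))
  have hS : ∀ j < ω₁, ∀ u : ℕ → Sd ξ fl, (∀ k, u k ∈ R ∧ (u k).j ≤ j) →
      (∀ i j, ∃ m, u m ≤ u i ∧ u m ≤ u j) → (fl → Bs (g j).1 fun k => (u k).r) →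
      ∀ a ≤ a0, ∃ a' ≤ a, ∃ η < kk, ∃ q, Pay a' η q ∧
        ∀ i, ∃ y' ∈ R, (∀ k, y' ≤ u k) ∧ y'.r = q i := fun j hj u h1 h2 h3 a h4 => by
    obtain ⟨a', b1, η, b2, q, b3, b4⟩ := (hg j hj).step (fun k => (u k).r)
      (fun k => (hR _ (h1 k).1).2.2.1 j (h1 k).2)
      (fun i j => let ⟨k, a, b⟩ := h2 i j; ⟨k, Sd.sle a, Sd.sle b⟩) h3 a h4
    exact ⟨a', b1, η, b2, q, b3, fun i => ⟨⟨j + 1, q i⟩, Or.inr (mem_iUnion₂.2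
      ⟨j, hj, _, (b4 i).1, rfl⟩), fun k => Or.inr ⟨Order.lt_add_one_iff.2 (h1 k).2, (b4 i).2 k⟩, rfl⟩⟩
  have h2 : ∀ z ∈ R ×ˢ Iic a0, ∃ η < kk, ∃ a' ≤ z.2, ∃ q, Pay a' η q ∧
      ∀ i, ∃ y' ∈ R, y' ≤ z.1 ∧ y'.r = q i := fun z hz => by
    obtain ⟨a', b1, η, b2, q, b3, b4⟩ := hS _ (hR _ hz.1).1 (fun _ => z.1) (fun _ => ⟨hz.1, le_rfl⟩)
      (fun _ _ => ⟨0, le_rfl, le_rfl⟩) (fun f ζ => ⟨z.1.r.y ζ, (hM _ hz.1).1.L.sub (z.1.r.y_L ζ),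
        fun c hc => z.1.r.y_x (hc.trans ((hM _ hz.1).2 f)) ζ, fun _ => le_rfl⟩) z.2 hz.2
    exact ⟨η, b2, a', b1, q, b3, fun i => let ⟨y, c1, c2, c3⟩ := b4 i; ⟨y, c1, c2 0, c3⟩⟩
  choose! e e1 e2 using h2
  have hRs : Sm R := ((sm_Iio omega1_lt_kk).biUnion fun j hj => (hg j hj).sm.image _).insert _
  obtain ⟨δ, d1, d2⟩ := ((hRs.prod (sm_Cc.mono (subset_univ (Iic a0)))).image e).bound
    (by rintro _ ⟨z, hz, rfl⟩; exact e1 z hz)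
  refine ⟨c, a1, δ, d1, R, Or.inl rfl, fun y hy => ⟨((a2 _ (hR y hy).1).trans
    ((hR y hy).2.2.2.1 _ (hR y hy).1 le_self_add).1), (hR y hy).2.1⟩, fun u h1 h2 => ?_,
    fun y hy a ha => ?_⟩
  · by_cases h : ∃ n, ∀ k, u n ≤ u k
    · obtain ⟨n, hn⟩ := h
      exact ⟨u n, h1 n, hn⟩
    push Not at h
    obtain ⟨j, b1, b2⟩ := exists_sup (.of_countable countable_univ) (fun k => (u k).j) fun n => by
      obtain ⟨k, hk⟩ := h n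
      obtain ⟨m, c1 | c1, c2⟩ := h2 n k
      exacts [absurd (c1 ▸ c2) hk, ⟨m, c1.1⟩]
    have hj : j < ω₁ := by
      obtain ⟨b, c1, c2⟩ := countable_bound (countable_range fun k => (u k).j)
        (by rintro _ ⟨k, rfl⟩; exact (hR _ (h1 k)).1)
      by_contra hc
      obtain ⟨k, hk⟩ := b2 b (c1.trans_le (not_lt.1 hc))
      exact hk.not_gt (c2 _ ⟨k, rfl⟩)
    have hl : Order.IsSuccLimit j := by
      refine ⟨(zero_le.trans_lt (b1 0)).not_isMin, Order.isSuccPrelimit_of_succ_lt fun β hβ => ?_⟩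
      obtain ⟨k, hk⟩ := b2 β hβ
      exact (Order.succ_le_of_lt hk).trans_lt (b1 k)
    obtain ⟨-, -, -, -, q, -, b3⟩ := hS j hj u (fun k => ⟨h1 k, (b1 k).le⟩) h2 (fun f =>
      (hg j hj).bs hl _ (fun k => ⟨(hR _ (h1 k)).2.2.1 j (b1 k).le, ⟨_, b1 k⟩,
        ((hR _ (h1 k)).2.2.2.1 _ (hR _ (h1 k)).1 le_self_add).2 f,
        ((hR _ (h1 k)).2.2.2.1 _ (hR _ (h1 k)).1 le_self_add).1.L.sub⟩)
      (fun i j => let ⟨k, a, b⟩ := h2 i j; ⟨k, (Sd.sle a).2.2 f, (Sd.sle b).2.2 f⟩) fun β hβ => by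
        obtain ⟨i, hi⟩ := ((hg j hj).top hl).1 β hβ
        obtain ⟨k, hk⟩ := b2 i i.2
        exact ⟨k, hi.trans_le ((hR _ (h1 k)).2.2.2.2 i hk)⟩) a0 le_rfl
    obtain ⟨y, c1, c2, -⟩ := b3 true
    exact ⟨y, c1, c2⟩
  · obtain ⟨a', b1, b2⟩ := e2 (y, a) ⟨hy, ha⟩
    exact ⟨a', b1, _, d2 _ ⟨(y, a), ⟨hy, ha⟩, rfl⟩, b2⟩

end Pool.Agent.P.MP_a5be26_lc.Sep

end
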