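import Pool.Agent.P.MP_a5be26_lc.Sep.B3
import Pool.Agent.P.MP_a5be26_lc.Gen

section

/-!
Continuous maps into the branches of thin trees have few fixed points.
-/

open Filter Set Function Cardinal Ordinal

namespace Pool.Agent.P.MP_a5be26_lc.Sep

open Pool.Agent.Lib.Helper87

/-- the forcing -/
abbrev PC : Type 1 := Cc × Cond

theorem fixed_old {f y : World PC → ZFSet.{0}} (hf : Named f) (hy : Named y) {p : PC} {ξ : O}
    (h0 : Sem p fun w => w.Good (f w) ∧ ZFSet.pair (y w) (y w) ∈ f w)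
    (hξ : ∀ E ∈ Codes Cond 0, ∀ η < kk, ∀ γ < kk, ∀ q, (Sem q fun w => w.Phi (f w) E η γ) →
      Sem (pres q ξ) fun w => w.Phi (f w) E η γ) :
    ∃ q ≤ p, ∃ E ∈ Codes Cond ξ, Sem q fun w => w.rv E = y w := by
  by_contra hc
  push Not at hc
  let W : PC → O → O → Prop := fun s η γ => Sem s fun w => w.pr η γ ∈ y w
  have hF : Sem p fun w => ZFSet.IsFunc (w.ord kk) (w.ord kk) (y w) :=
    h0.imp' fun w h => (h.1.1 _ _ h.2).1.2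
  have w0 : ∀ s ≤ p, ∀ η γ, W s η γ → η < kk ∧ γ < kk := fun s hs η γ h => by
    obtain ⟨w, -, ⟨a1, a2⟩, -⟩ := ((hF.mono hs).and h).exists (ev_const η)
    have := ZFSet.pair_mem_prod.1 (a1.1 a2)
    exact ⟨w.lt_of_ord_mem this.1, w.lt_of_ord_mem this.2⟩
  have w2 : ∀ s ≤ p, ∀ η γ γ', W s η γ → W s η γ' → γ = γ' := fun s hs η γ γ' h h' => by
    obtain ⟨w, -, ⟨⟨a1, a2⟩, a3⟩, a4, a5⟩ := (((hF.mono hs).and h).and h').exists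
      ((ev_const γ).and (ev_const γ'))
    exact (w.ord_inj a4 a5).1 (func_uniq a1 a2 a3)
  have cc : ∀ s ≤ p, ∀ η γ, W s η γ → ∃ u ≤ s, ∃ E ∈ Codes Cond 0,
      (Sem u fun w => w.Sub E (y w)) ∧ Sem (pres u ξ) fun w => w.Phi (f w) E η γ :=
    fun s hs η γ h => by
      obtain ⟨u, a1, E, a2, a3, a4⟩ := cont_code (y := y) (p := s) hf hy (w0 s hs η γ h).1
        (((h0.mono hs).and h).imp' fun w h => ⟨h.1.1, h.1.2, h.2⟩)
      exact ⟨u, a1, E, a2, a3, hξ E a2 η (w0 s hs η γ h).1 γ (w0 s hs η γ h).2 u a4⟩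
  have sub : ∀ (s : PC) (E : Set (PC × O × O)) (z : PC) (η γ : O),
      (Sem s fun w => w.Sub E (y w)) → (z, η, γ) ∈ E → s ≤ z → W s η γ := fun s E z η γ h1 h2 h3 => by
    filter_upwards [h1, ev_const η, ev_const γ] with w a1 a2 a3 ⟨r, a4, a5⟩
    exact a1 ⟨r, a4, a5⟩ η a2 γ a3 ⟨r, a4, z, h2, a5.trans h3⟩
  let CF : PC → Prop := fun s => ∀ a ≤ s.1, ∀ r0 ≤ s.2, ∀ r1 ≤ s.2, r1.c ≤ r0.c →
    r1 ≤ r0.res ξ → ∀ η γ γ', W (a, r0) η γ → W (a, r1) η γ' → γ = γ'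
  obtain ⟨p1, hp1, hCF⟩ : ∃ p1 ≤ p, (∃ s ≤ p, CF s) → CF p1 := by
    by_cases h : ∃ s ≤ p, CF s
    · obtain ⟨s, a1, a2⟩ := h
      exact ⟨s, a1, fun _ => a2⟩
    · exact ⟨p, le_rfl, fun h' => absurd h' h⟩
  obtain ⟨c, a0, δ, a1, R, a2, a3, a4, a5⟩ := sys (ξ := ξ) (fl := ¬ ∃ s ≤ p, CF s) (a0 := p1.1)
    (q0 := p1.2) (Pay := fun a η q => ∃ γ : Bool → O, γ false ≠ γ true ∧ ∀ i, ∃ E ∈ Codes Cond 0,
      (Sem ((a, q i) : PC) fun w => w.Sub E (y w)) ∧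
        Sem ((a, (q i).res ξ) : PC) fun w => w.Phi (f w) E η (γ i)) fun a ha r hr => by
      have h1 : ((a, r) : PC) ≤ p := le_trans (b := p1) ⟨ha, hr⟩ hp1
      by_cases fl : ∃ s ≤ p, CF s
      · obtain ⟨r0, b1, η, b2, γ, b3, b4⟩ := split hy ξ (hF.mono h1) (hc _ h1)
        obtain ⟨-, q0, c1, c2, c3⟩ := b4 false
        obtain ⟨-, q1, d1, d2, d3⟩ := b4 true
        obtain ⟨s0, e1, e2⟩ := pamalg b1 c2
        obtain ⟨u0, e3, E0, e4, e5, e6⟩ := cc s0 (e2.trans (c1.trans h1)) η _ (c3.mono e2)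
        obtain ⟨s1, g1, g2⟩ := pamalg (pin_pres u0 ξ) ((pres_le (e3.trans e1) b1).trans d2)
        obtain ⟨u1, g3, E1, g4, g5, g6⟩ := cc s1 (g2.trans (d1.trans h1)) η _ (d3.mono g2)
        have g7 := g3.trans g1
        refine ⟨u1.1, (g3.trans (g2.trans d1)).1, η, b2, fun i => cond i u1.2 u0.2, fun i => ?_,
          ⟨γ, b3, fun i => ?_⟩, u1.2, fun i => ?_⟩ <;> cases i
        exacts [(e3.trans (e2.trans c1)).2, (g3.trans (g2.trans d1)).2,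
          ⟨E0, e4, e5.mono ⟨g7.1, le_rfl⟩, e6.mono ⟨g7.1, le_rfl⟩⟩, ⟨E1, g4, g5, g6⟩,
          ⟨g7.2, fun h => absurd fl h⟩, .of_le le_rfl]
      · have h2 : ¬ CF (a, r) := fun h => fl ⟨_, h1, h⟩
        simp only [CF, not_forall] at h2
        obtain ⟨a', b1, r0, b2, r1, b3, b4, b5, η, γ0, γ1, b6, b7, b8⟩ := h2
        have h3 : ((a', r1) : PC) ≤ p := le_trans (b := (a, r)) ⟨b1, b3⟩ h1
        obtain ⟨u1, c1, E1, c2, c3, c4⟩ := cc _ h3 η _ b7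
        obtain ⟨r0', d1, d2, d3⟩ := swap_le (c1.2.c.trans b4) (le_trans c1.2 b5)
        have d4 : ((u1.1, r0') : PC) ≤ (a', r0) := ⟨c1.1, d1⟩
        obtain ⟨u0, e1, E0, e2, e3, e4⟩ := cc _ (d4.trans (le_trans (b := (a, r)) ⟨b1, b2⟩ h1)) η _
          (b6.mono d4)
        refine ⟨u0.1, le_trans (e1.trans d4).1 b1, η, (w0 _ h3 η _ b7).1,
          fun i => cond i u1.2 u0.2, fun i => ?_, ⟨fun i => cond i γ1 γ0, b8, fun i => ?_⟩, u0.2,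
          fun i => ?_⟩ <;> cases i
        exacts [le_trans (e1.trans d4).2 b2, le_trans c1.2 b3, ⟨E0, e2, e3, e4⟩,
          ⟨E1, c2, c3.mono ⟨e1.1, le_rfl⟩, c4.mono ⟨e1.1, le_rfl⟩⟩, .of_le le_rfl,
          ⟨le_trans e1.2 d3, fun _ => e1.2.c.trans d2⟩]
  have a6 : ((p1.1, c) : PC) ≤ p := le_trans (b := p1) ⟨le_rfl, a0⟩ hp1
  obtain ⟨b1, b2, e, b3, b4⟩ := Sem.exM (p := (p1.1, c)) (Φ := fun e w => w.Num (f w) e δ)
    (fun e he => measurable_Num hf he δ)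
    ((h0.mono a6).imp ((ev_const δ).mono fun w h h' => h'.1.2 δ h a1))
  refine diag p_lb b3 b1 δ b4 R _ a2 a4
    (fun b u E => E ∈ Codes Cond 0 ∧ u.r ≤ p1.2 ∧ Sem ((b.1, u.r) : PC) fun w => w.Sub E (y w))
    (fun b b' u E h h' => ⟨h'.1, h'.2.1, h'.2.2.mono ⟨h.1, le_rfl⟩⟩)
    (fun b u E h z hz => (h.1 hz).2) (fun b hb u u' E E' c1 c2 c3 c4 => ?_) fun b hb u hu => ?_
  · filter_upwards [ev_generic] with w d1 d2 η _ γ _ γ' _ ⟨ρ, d3, z, d4, d5⟩ ⟨ρ', d6, z', d7, d8⟩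
    obtain ⟨π', e1, e2, e3⟩ := d1.dir ρ d3 ρ' d6
    obtain ⟨π, -, e4, e5⟩ := d1.has_and d2 (w.has_of_mem e1)
    have e6 := e4.trans (hb.trans b2)
    obtain ⟨v, g1, g2⟩ := amalg (π.2.c.inX_res ξ) (Cond.res_le_res (le_trans e6.2 (a3 _ c1).1))
    have g3 : ((π.1, v) : PC) ≤ pres π ξ := ⟨le_rfl, g1⟩
    have z1 : PIn z ξ := PIn.mono (c3.1 d4).1 zero_le
    have g4 := g3.trans (pres_le (e5.trans (e2.trans d5)) z1)
    have g5 := sub (π.1, v) E' z' η γ' (c4.2.2.mono ⟨e4.1, g2⟩) d7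
      (g3.trans (pres_le (e5.trans (e3.trans d8)) (PIn.mono (c4.1 d7).1 zero_le)))
    have g6 : v ≤ p1.2 := g2.trans c4.2.1
    by_cases fl : ∃ s ≤ p, CF s
    · obtain ⟨v', h1, h2, h3⟩ := swap_le (g2.c.trans (Sd.sle c2).1) (g2.trans (Sd.sle c2).2.1)
      exact (hCF fl π.1 e6.1 v g6 v' (h1.trans c3.2.1) h2 h3 η γ' γ g5
        (sub (π.1, v') E z η γ (c3.2.2.mono ⟨e4.1, h1⟩) d4
          (le_trans (b := pres (π.1, v) ξ) ⟨le_rfl, h3⟩ (pres_le g4 z1)))).symm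
    · exact w2 (π.1, v) (le_trans (b := p1) ⟨e6.1, g6⟩ hp1) η γ γ' (sub (π.1, v) E z η γ
        (c3.2.2.mono ⟨e4.1, g2.trans ((Sd.sle c2).2.2 fl)⟩) d4 g4) g5
  · obtain ⟨a', c1, η, c2, q, ⟨γ, c3, c4⟩, c5⟩ := a5 u hu b.1 (hb.trans b2).1
    refine ⟨(a', b.2), ⟨c1, le_rfl⟩, η, c2, γ, c3, fun i => ?_⟩
    obtain ⟨u', d1, d2, d3⟩ := c5 i
    obtain ⟨E, d4, d5, d6⟩ := c4 i
    exact ⟨u', d1, d2, E, ⟨d4, (a3 _ d1).2, d3 ▸ d5⟩,
      d6.mono ⟨le_rfl, le_trans (hb.trans b2).2 (d3 ▸ (a3 _ d1).1)⟩⟩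

theorem ev_small_fix : ∀ᶠ w in gen PC, ∀ f ∈ w.M, w.Good f → ∀ A : ZFSet.{0},
    (∀ y, y ∈ A ↔ ZFSet.pair y y ∈ f) → CardLE w.M A (w.ord kk) := by
  refine ev_all_named fun f hf => ?_
  obtain ⟨ξ, -, h3⟩ := sem_reflect (Codes Cond 0 ×ˢ Iio kk ×ˢ Iio kk)
    (Φ := fun j w => w.Phi (f w) j.1 j.2.1 j.2.2) (fun j => measurable_Phi hf _ _ _) 0
  have h4 : ∀ᶠ w in gen PC, ∀ y ∈ w.M, w.Good (f w) ∧ ZFSet.pair y y ∈ f w →
      ∃ E, w.In E ∧ E ∈ Codes Cond ξ ∧ w.rv E = y := by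
    refine ev_all_named fun y hy => ev_of_dense fun p => ?_
    obtain ⟨q, a1, a2 | a2⟩ :=
      ((measurable_Good hf).and ((hy.pair hy).measurable_mem hf)).decidesK p
    · obtain ⟨r, a3, E, a4, a5⟩ := fixed_old hf hy a2
        fun E hE η hη γ hγ => h3 (E, η, γ) ⟨hE, hη, hγ⟩
      exact ⟨r, a3.trans a1, a5.imp ((ev_const E).mono fun w b1 b2 _ => ⟨E, b1, a4, b2⟩)⟩
    · exact ⟨q, a1, a2.imp' fun w h h' => absurd h' h⟩
  filter_upwards [h4, ev_pair_M, hf.ev_mem, ev_le2 (Q := Cond) named_rv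
    (Ψ := fun E w => ZFSet.pair (w.rv E) (w.rv E) ∈ f w)
    (fun E => ((named_rv E).pair (named_rv E)).measurable_mem hf) (Codes Cond ξ)]
    with w a1 a2 a3 a4 a5 A hA
  refine a4 A fun y => (hA y).trans ⟨fun h => ?_, ?_⟩
  · obtain ⟨E, c1, c2, rfl⟩ := a1 y (a2 _ a3 y y h).1 ⟨a5, h⟩
    exact ⟨E, c1, ⟨c2, h⟩, rfl⟩
  · rintro ⟨E, -, ⟨-, h⟩, rfl⟩
    exact h

theorem ev_fix : ∀ᶠ w in gen PC, ∀ T, Thin w.M (w.ord ω₁) (w.ord kk) T → ∀ f ∈ w.M,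
    ZFSet.IsFunc (baire w.M (w.ord kk)) (branches w.M (w.ord kk) T) f → Cont (w.ord kk) f →
    CardLE w.M (ZFSet.sep (fun y => ZFSet.pair y y ∈ f) (branches w.M (w.ord kk) T))
      (w.ord kk) := by
  filter_upwards [ev_small_fix, ev_good] with w h1 h2 T a1 f a2 a3 a4
  exact h1 f a2 (h2 T f a1 a3 a4) _ fun y => ZFSet.mem_sep.trans
    ⟨fun h => h.2, fun h => ⟨(ZFSet.pair_mem_prod.1 (a3.1 h)).2, h⟩⟩

end Pool.Agent.P.MP_a5be26_lc.Sep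

end

section

/-!
The continuous map from the Baire space to the branches of the generic tree.
-/

open Filter Set Function Cardinal Ordinal

namespace Pool.Agent.P.MP_a5be26_lc.Sep

open Pool.Agent.Lib.Helper87

/-- the label `u` is in the generic labelling and its node lies in `y` -/
def Live (w : World PC) (y : ZFSet.{0}) (u : Lab) : Prop :=
  (w.Frc fun p => u ∈ p.2.L) ∧ ∀ z : O × O, w.In z → z ∈ u.s → w.pr z.1 z.2 ∈ y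

/-- the value of the map -/
noncomputable def Fv (w : World PC) (y : ZFSet.{0}) : ZFSet.{0} :=
  w.chi kk fun η => ∃ u : Lab, w.In u ∧ Live w y u ∧ η ∈ u.x

theorem measurable_Live {y : World PC → ZFSet.{0}} (hy : Named y) (u : Lab) :
    Measurable fun w => Live w (y w) u :=
  have h1 : Measurable fun w : World PC => w.Frc fun p => u ∈ p.2.L :=
    measurable_frc fun _ _ h h' => h.2.L.sub h'
  h1.and (measurable_all_in fun z : O × O =>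
    measurable_const.imp ((named_pr z.1 z.2).measurable_mem hy))

theorem named_Fv {y : World PC → ZFSet.{0}} (hy : Named y) : Named fun w => Fv w (y w) :=
  named_chi kk (Φ := fun η w => ∃ u : Lab, w.In u ∧ Live w (y w) u ∧ η ∈ u.x) fun _ =>
    measurable_ex_in fun u => (measurable_Live hy u).and measurable_const

theorem mono_c : Monotone Cond.c := fun _ _ h => h.c

end Pool.Agent.P.MP_a5be26_lc.Sep

end

section

/-!
The set of branches of the generic tree is a continuous image of the Baire space.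
-/

open Filter Set Function Cardinal Ordinal

namespace Pool.Agent.P.MP_a5be26_lc.Sep

open Pool.Agent.Lib.Helper87

section general
variable {P : Type 1}

theorem pr_mem_coll {w : World P} (h : w.Base) {Φ : O × O → Prop} {η γ : O} (h1 : w.In η)
    (h2 : w.In γ) : w.pr η γ ∈ w.coll Φ (fun z => w.pr z.1 z.2) ↔ Φ (η, γ) := by
  refine w.mem_coll.trans ⟨?_, fun h' => ⟨(η, γ), (h.2.2 _).2 ⟨h1, h2⟩, h', rfl⟩⟩
  rintro ⟨z, c1, c2, c3⟩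
  obtain ⟨rfl, rfl⟩ := (w.pr_inj ((h.2.2 z).1 c1).1 ((h.2.2 z).1 c1).2 h1 h2).1 c3
  exact c2

theorem agree_chi {w : World P} (h : w.Base) {α β : O} {Φ Ψ : O → Prop}
    (H : ∀ η, w.In η → η < α → (Φ η ↔ Ψ η)) : Agree (w.ord α) (w.chi β Φ) (w.chi β Ψ) := by
  have key : ∀ {Φ Ψ : O → Prop}, (∀ η, w.In η → η < α → (Φ η ↔ Ψ η)) → ∀ a ∈ w.ord α, ∀ b,
      ZFSet.pair a b ∈ w.chi β Φ → ZFSet.pair a b ∈ w.chi β Ψ := fun H a ha b hb => by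
    obtain ⟨η, a1, a2, rfl⟩ := w.mem_ord.1 ha
    obtain ⟨γ, a3, -, a4⟩ := func_val (isFunc_chi h) (ZFSet.pair_mem_prod.1 ((isFunc_chi h).1 hb)).1
    rw [func_uniq (isFunc_chi h) hb a4]
    have := (pr_mem_chi h a1 a3).1 a4
    rw [H η a1 a2] at this
    exact (pr_mem_chi h a1 a3).2 this
  exact fun a ha b => ⟨key H a ha b, key (fun η a1 a2 => (H η a1 a2).symm) a ha b⟩

theorem exists_restrict {A B k y : ZFSet.{0}} (h : ZFSet.IsFunc B k y) (hA : A ⊆ B) :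
    ∃ v, ZFSet.IsFunc A k v ∧ v ⊆ y ∧ ∀ a ∈ A, ∀ b, ZFSet.pair a b ∈ y → ZFSet.pair a b ∈ v := by
  refine ⟨ZFSet.sep (fun z => ∃ a ∈ A, ∃ b, z = ZFSet.pair a b) y, ⟨fun z hz => ?_, fun a ha => ?_⟩,
    fun z hz => (ZFSet.mem_sep.1 hz).1, fun a ha b hb => ZFSet.mem_sep.2 ⟨hb, a, ha, b, rfl⟩⟩
  · obtain ⟨e1, a, e2, b, rfl⟩ := ZFSet.mem_sep.1 hz
    exact ZFSet.pair_mem_prod.2 ⟨e2, (ZFSet.pair_mem_prod.1 (h.1 e1)).2⟩
  · obtain ⟨b, e1, e2⟩ := h.2 a (hA ha)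
    exact ⟨b, ZFSet.mem_sep.2 ⟨e1, a, ha, b, rfl⟩, fun b' e3 => e2 b' (ZFSet.mem_sep.1 e3).1⟩

variable [Preorder P]

theorem frc_of_sem {p : P} {D : P → Prop} (hD : ∀ p q, q ≤ p → D p → D q)
    (h : Sem p fun w => w.Frc D) : ∃ r ≤ p, D r := by
  obtain ⟨w, a1, ⟨q, a2, a3⟩, a4⟩ := h.exists ev_generic
  obtain ⟨r, -, b1, b2⟩ := a4.dir p a1 q a2
  exact ⟨r, b1, hD _ _ b2 a3⟩

/-- every function has a code -/
theorem ev_code (a b : O) : ∀ᶠ w in gen P, ∀ y ∈ w.M, ZFSet.IsFunc (w.ord a) (w.ord b) y →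
    ∃ E, w.In E ∧ w.rv E = y := by
  refine ev_all_named fun y hy => ?_
  filter_upwards [ev_base', ev_const {z : P × O × O | Sem z.1 fun w => w.pr z.2.1 z.2.2 ∈ y w},
    ev_all fun z : O × O => ev_sem fun w => w.pr z.1 z.2 ∈ y w,
    ev_all fun η : O => ev_all fun γ : O => ev_forced ((named_pr η γ).measurable_mem hy)]
    with w a1 a2 a3 a4 h
  refine ⟨_, a2, ZFSet.ext fun z => w.mem_coll.trans ⟨?_, fun hz => ?_⟩⟩
  · rintro ⟨u, b1, ⟨r, b2, s, b3, b4⟩, rfl⟩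
    exact a3 u b1 s ⟨r, b2, b4⟩ b3
  · obtain ⟨η, γ, b1, b2, -, -, rfl⟩ := func_mem h hz
    obtain ⟨q, c1, c2⟩ := a4 η b1 γ b2 hz
    exact ⟨(η, γ), (a1.2.2 _).2 ⟨b1, b2⟩, ⟨q, c1, q, c2, le_rfl⟩, rfl⟩

end general

theorem Good.cut {α : O} {t : Set (Set O)} {L : Set Lab} (h : Good α t L) {u : Lab} (hu : u ∈ L)
    (a : O) : ∃ u' ∈ L, (∀ z ∈ u'.s, z ∈ u.s ∧ z.1 < a) ∧ ∀ η ∈ u.x, η < a → η ∈ u'.x := by
  obtain ⟨u', a1, a2⟩ := h.down u hu {z ∈ u.s | z.1 < a}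
    (fun z hz β hβ => let ⟨γ, hγ⟩ := h.dn u hu z hz.1 β hβ; ⟨γ, hγ, hβ.trans hz.2⟩)
    (sep_subset _ _)
  refine ⟨u', a1, fun z hz => by rwa [a2] at hz, fun η b1 b2 => ?_⟩
  by_cases c : ∀ z ∈ u.s, z.1 < a
  · rw [(h.cmp u hu u' a1 fun z hz => by rw [a2]; exact ⟨hz, c z hz⟩).1.2.2] at b1
    exact b1.1
  · push Not at c
    obtain ⟨z, c1, c2⟩ := c
    obtain ⟨γ, hγ⟩ := h.dn u hu z c1 η (b2.trans_le c2)
    rw [(h.cmp u' a1 u hu (by rw [a2]; exact sep_subset _ _)).1.2.2]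
    exact ⟨b1, (h.bd u' a1 (η, γ) (by rw [a2]; exact ⟨hγ, b2⟩)).1⟩

theorem ev_agree : ∀ᶠ w in gen PC, ∀ α ∈ w.ord kk, ∀ x x', Agree α x x' →
    Agree α (Fv w x) (Fv w x') := by
  filter_upwards [ev_base', ev_all fun u : Lab => ev_all fun a : O =>
    ev_skolemG fun (p : PC) (u' : Lab) => u' ∈ p.2.L ∧ (∀ z ∈ u'.s, z ∈ u.s ∧ z.1 < a) ∧
      ∀ η ∈ u.x, η < a → η ∈ u'.x] with w a1 a2 α hα
  obtain ⟨a, b1, -, rfl⟩ := w.mem_ord.1 hα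
  have key : ∀ x x', Agree (w.ord a) x x' → ∀ η < a, (∃ u : Lab, w.In u ∧ Live w x u ∧ η ∈ u.x) →
      ∃ u : Lab, w.In u ∧ Live w x' u ∧ η ∈ u.x := by
    rintro x x' h η hη ⟨u, c1, ⟨⟨p, c2, c3⟩, c4⟩, c5⟩
    obtain ⟨u', d1, d2, d3, d4⟩ := a2 u c1 a b1 p c2 (p.2.good.cut c3 a)
    exact ⟨u', d1, ⟨⟨p, c2, d2⟩, fun z e1 e2 => (h _ (w.ord_mem ((a1.2.2 z).1 e1).1 (d3 z e2).2) _).1
      (c4 z e1 (d3 z e2).1)⟩, d4 η c5 hη⟩
  exact fun x x' h => agree_chi a1 fun η _ hη =>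
    ⟨key x x' h η hη, key x' x (fun a ha b => (h a ha b).symm) η hη⟩

theorem live_sem {y : World PC → ZFSet.{0}} {p : PC} {u : Lab} (h : Sem p fun w => Live w (y w) u)
    {e : O × O} (he : e ∈ u.s) : Sem p fun w => w.pr e.1 e.2 ∈ y w :=
  h.imp ((ev_const e).mono fun _ a b => b.2 e a he)

theorem ev_level {y : World PC → ZFSet.{0}} (hy : Named y) {β : O} (hβ : β < kk) :
    ∀ᶠ w in gen PC, ZFSet.IsFunc (w.ord kk) (w.ord kk) (y w) → ∃ z : Set O, w.In z ∧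
      (w.Frc fun p => z ∈ p.2.c.t) ∧ ∀ η, w.In η → η < β →
        ((∃ u : Lab, w.In u ∧ Live w (y w) u ∧ η ∈ u.x) ↔ η ∈ z) := by
  refine ev_of_dense fun p => ?_
  obtain ⟨q, a1, a2 | a2⟩ := (measurable_isFunc (named_ord kk) (named_ord kk) hy).decidesK p
  swap
  · exact ⟨q, a1, a2.imp' fun w h h' => absurd h' h⟩
  obtain ⟨π, b1, z, b2, -, b3, b4⟩ := bnd p_lb
    (fun q β h => let ⟨r, c1, _, c2⟩ := dense_D q 0 h; ⟨r, c1, c2⟩) q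
    (fun p e => Sem p fun w => w.pr e.1 e.2 ∈ y w) (fun _ _ _ h h' => h'.mono h)
    (fun p hp e e' h h' c => by
      obtain ⟨w, -, ⟨⟨c1, c2⟩, c3⟩, c4, c5⟩ := (((a2.mono hp).and h).and h').exists
        ((ev_const e.2).and (ev_const e'.2))
      rw [World.pr, ← c] at c3
      exact (w.ord_inj c4 c5).1 (func_uniq c1 c2 c3)) hβ
  refine ⟨π, b1.trans a1, ?_⟩
  filter_upwards [ev_generic, ev_const z, ev_all fun u => ev_forced (measurable_Live hy u),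
    ev_all fun η : O => ev_dense_ex fun (ρ : PC) (u : Lab) => u ∈ ρ.2.L ∧
      (∀ e ∈ u.s, Sem ρ fun w => w.pr e.1 e.2 ∈ y w) ∧ η ∈ u.x,
    ev_all fun e : O × O => ev_sem fun w => w.pr e.1 e.2 ∈ y w]
    with w c1 c2 c3 c4 c5 ⟨ρ, c6, c7⟩ _
  refine ⟨z, c2, ⟨ρ, c6, c7.2.c.t_sub b2⟩, fun η d1 d2 => ⟨?_, fun d3 => ?_⟩⟩
  · rintro ⟨u, e1, e2, e3⟩
    obtain ⟨r, e4, e5⟩ := c3 u e1 e2
    obtain ⟨s, e6, e7⟩ := e2.1
    obtain ⟨r', g1, g2, g3⟩ := c1.dir r e4 s e6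
    obtain ⟨s', -, g4, g5⟩ := c1.dir ρ c6 r' g1
    exact b3 s' (g4.trans c7) u ((g5.trans g3).2.L.sub e7)
      (fun e he => (live_sem e5 he).mono (g5.trans g2)) η e3 d2
  · obtain ⟨r, e1, -, u, e2, e3, e4, e5⟩ := c4 η d1 ρ c6 fun r hr => b4 η d3 d2 r (hr.trans c7)
    exact ⟨u, e2, ⟨⟨r, e1, e3⟩, fun e g1 g2 => c5 e g1 r (w.has_of_mem e1) (e4 e g2)⟩, e5⟩

theorem ev_branch : ∀ᶠ w in gen PC, ∀ y ∈ w.M, ZFSet.IsFunc (w.ord kk) (w.ord kk) y →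
    Fv w y ∈ branches w.M (w.ord kk) (w.treeG Cond.c) := by
  refine ev_all_named fun y hy => ?_
  filter_upwards [ev_base', (named_Fv hy).ev_mem, ev_in_prod O (Set O),
    ev_all fun β : O => ev_dimp fun h : β < kk => ev_level hy h] with w a1 a2 a3 a4 h
  refine ZFSet.mem_sep.2 ⟨ZFSet.mem_sep.2 ⟨ZFSet.mem_funs.2 (isFunc_chi a1), a2⟩,
    fun α hα s h1 h2 => ?_⟩
  obtain ⟨α, c1, c2, rfl⟩ := w.mem_ord.1 hα
  obtain ⟨z, c3, c4, c5⟩ := a4 α c1 c2 h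
  exact mem_treeG.2 ⟨(α, z), (a3 _).2 ⟨c1, c3⟩, ⟨c2, c4⟩, eq_chi a1 h1 h2 c5⟩

/-- the levels of a branch are given by members of the tree -/
theorem ev_branch_level : ∀ᶠ w in gen PC, ∀ x ∈ branches w.M (w.ord kk) (w.treeG Cond.c),
    x ⊆ w.chi kk (fun η => w.pr η 1 ∈ x) ∧ ∀ β : O, w.In β → β < kk → ∃ z : Set O, w.In z ∧
      (w.Frc fun p => z ∈ p.2.c.t) ∧ ∀ η, w.In η → η < β → (η ∈ z ↔ w.pr η 1 ∈ x) := by
  filter_upwards [ev_base', ev_in_prod O (Set O), ev_fun fun η : O => η + 1] with w a1 a2 a3 x hx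
  obtain ⟨b1, b2⟩ := ZFSet.mem_sep.1 hx
  have b3 := ZFSet.mem_funs.1 (ZFSet.mem_sep.1 b1).1
  have key : ∀ β : O, w.In β → β < kk → ∃ z : Set O, w.In z ∧ (w.Frc fun p => z ∈ p.2.c.t) ∧
      ∀ η γ, w.In η → w.In γ → η < β → w.pr η γ ∈ x → (γ = 1 ∧ η ∈ z) ∨ (γ = 0 ∧ η ∉ z) := by
    intro β c1 c2
    obtain ⟨v, d1, d2, d3⟩ := exists_restrict b3 (w.ord_trans _ _ (w.ord_mem c1 c2))
    obtain ⟨u, e1, e2, rfl⟩ := mem_treeG.1 (b2 _ (w.ord_mem c1 c2) v d1 d2)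
    exact ⟨u.2, ((a2 u).1 e1).2, e2.2, fun η γ g1 g2 g3 g4 =>
      ((pr_mem_chi a1 g1 g2).1 (d3 _ (w.ord_mem g1 g3) _ g4)).2⟩
  refine ⟨fun e he => ?_, fun β c1 c2 => ?_⟩
  · obtain ⟨η, γ, c1, c2, c3, -, rfl⟩ := func_mem b3 he
    obtain ⟨z, -, -, c4⟩ := key _ (a3 η c1) (kk_succ c3)
    refine (pr_mem_chi a1 c1 c2).2 ⟨c3, ?_⟩
    rcases c4 η γ c1 c2 (Order.lt_add_one_iff.2 le_rfl) he with ⟨rfl, -⟩ | ⟨rfl, -⟩
    · exact Or.inl ⟨rfl, he⟩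
    · exact Or.inr ⟨rfl, fun h => zero_ne_one ((w.ord_inj a1.1 a1.2.1).1 (func_uniq b3 he h))⟩
  · obtain ⟨z, c3, c4, c5⟩ := key β c1 c2
    refine ⟨z, c3, c4, fun η d1 d2 => ⟨fun d3 => ?_, fun d3 => ?_⟩⟩
    · obtain ⟨γ, e1, -, e2⟩ := func_val b3 (w.ord_mem d1 (d2.trans c2))
      rcases c5 η γ d1 e1 d2 e2 with ⟨rfl, -⟩ | ⟨-, e3⟩
      exacts [e2, absurd d3 e3]
    · rcases c5 η 1 d1 a1.2.1 d2 d3 with e | e
      exacts [e.2, absurd e.1 one_ne_zero]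

/-- the union of the nodes of the chosen labels, padded by zero -/
noncomputable def pad (w : World PC) (D : PC → O × O → Prop) : ZFSet.{0} :=
  w.coll (fun z : O × O => (w.Frc fun ρ => D ρ z) ∨
    (z.1 < kk ∧ z.2 = 0 ∧ ∀ γ : O, w.In γ → ¬ w.Frc fun ρ => D ρ (z.1, γ))) fun z => w.pr z.1 z.2

theorem named_pad {D : PC → O × O → Prop} (hD : ∀ z p q, q ≤ p → D p z → D q z) :
    Named fun w => pad w D :=
  named_coll (fun z : O × O => named_pr z.1 z.2) fun z => (measurable_frc (hD z)).or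
    (measurable_const.and (measurable_const.and (measurable_all_in fun γ : O =>
      (measurable_frc (hD (z.1, γ))).not)))

theorem isFunc_pad {w : World PC} (h : w.Base) (hw : w.Generic) {D : PC → O × O → Prop}
    (hD : ∀ z p q, q ≤ p → D p z → D q z) (h1 : ∀ p z, D p z → z.1 < kk ∧ z.2 < kk)
    (h2 : ∀ p η γ γ', D p (η, γ) → D p (η, γ') → γ = γ') :
    ZFSet.IsFunc (w.ord kk) (w.ord kk) (pad w D) := by
  refine isFunc_mk (fun z hz => ?_) (fun η a1 a2 => ?_) fun η γ γ' a1 a2 a3 a4 a5 => ?_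
  · obtain ⟨u, c1, c2, rfl⟩ := w.mem_coll.1 hz
    have : u.1 < kk ∧ u.2 < kk := by
      rcases c2 with ⟨p, -, c⟩ | c
      exacts [h1 p u c, ⟨c.1, c.2.1 ▸ kk_pos⟩]
    exact ⟨u.1, u.2, ((h.2.2 u).1 c1).1, ((h.2.2 u).1 c1).2, this.1, this.2, rfl⟩
  · by_cases e : ∃ γ : O, w.In γ ∧ w.Frc fun ρ => D ρ (η, γ)
    · obtain ⟨γ, e1, e2⟩ := e
      exact ⟨γ, (pr_mem_coll h a1 e1).2 (Or.inl e2)⟩
    · exact ⟨0, (pr_mem_coll h a1 h.1).2 (Or.inr ⟨a2, rfl, fun γ e1 e2 => e ⟨γ, e1, e2⟩⟩)⟩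
  · rcases (pr_mem_coll h a1 a2).1 a4 with c | c <;> rcases (pr_mem_coll h a1 a3).1 a5 with d | d
    · obtain ⟨p, -, e1, e2⟩ := hw.frc_and (hD _) (hD _) c d
      exact h2 p η γ γ' e1 e2
    · exact absurd c (d.2.2 γ a2)
    · exact absurd d (c.2.2 γ' a3)
    · exact c.2.1.trans d.2.1.symm

theorem ev_preimage {x : World PC → ZFSet.{0}} (hx : Named x) : ∀ᶠ w in gen PC,
    (∀ β : O, w.In β → β < kk → ∃ z : Set O, w.In z ∧ (w.Frc fun p => z ∈ p.2.c.t) ∧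
      ∀ η, w.In η → η < β → (η ∈ z ↔ w.pr η 1 ∈ x w)) →
    ∃ y ∈ baire w.M (w.ord kk), ∀ η, w.In η → η < kk →
      (w.pr η 1 ∈ x w ↔ ∃ u : Lab, w.In u ∧ Live w y u ∧ η ∈ u.x) := by
  have hT : ∀ z (p q : PC), q ≤ p → z ∈ p.2.c.t → z ∈ q.2.c.t := fun _ _ _ h h' => h.2.c.t_sub h'
  have hm : ∀ (β : O) (z : Set O), Measurable fun w : World PC => (w.Frc fun p => z ∈ p.2.c.t) ∧
      ∀ η, w.In η → η < β → (η ∈ z ↔ w.pr η 1 ∈ x w) := fun β z =>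
    Measurable.and (measurable_frc (hT z)) (measurable_all_in fun η =>
      measurable_const.imp (measurable_const.iff ((named_pr η 1).measurable_mem hx)))
  refine ev_of_dense fun p => ?_
  obtain ⟨π0, a1, a2 | a2⟩ := (measurable_all_in fun β : O =>
    (measurable_const (a := β < kk)).imp (measurable_ex_in (hm β))).decidesK p
  swap
  · exact ⟨π0, a1, a2.imp' fun w h h' => absurd h' h⟩
  let A : PC → O → Set O → Prop := fun p β z => ∀ η < β, Sem p fun w => (η ∈ z ↔ w.pr η 1 ∈ x w)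
  have hA : ∀ p q β z, q ≤ p → A p β z → A q β z := fun p q β z h h' η hη => (h' η hη).mono h
  have htot : ∀ p ≤ π0, ∀ β < kk, ∃ p' ≤ p, ∃ z ∈ p'.2.c.t, A p' β z := fun p hp β hβ => by
    obtain ⟨q, b1, z, b2⟩ := Sem.ex_in (hm β)
      ((a2.mono hp).imp ((ev_const β).mono fun w h h' => h' β h hβ))
    obtain ⟨r, b3, b4⟩ := frc_of_sem (hT z) (b2.imp' fun w h => h.1)
    exact ⟨r, b3.trans b1, z, b4, fun η hη =>
      (b2.mono b3).imp ((ev_const η).mono fun w h h' => h'.2 η h hη)⟩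
  obtain ⟨π, b0, lab, b1, b2, b3, b4⟩ := onto meetS runS dense_lab π0 A hA
    (fun p β β' z h h' η hη => h' η (hη.trans_le h))
    (fun p _ β z z' h h' => Set.ext fun η => and_congr_left fun hη => by
      obtain ⟨w, -, c, -⟩ := ((h η hη).and (h' η hη)).exists (ev_const η)
      exact c.1.trans c.2.symm) htot
  let D : PC → O × O → Prop := fun ρ z => ρ ≤ π ∧ z ∈ (lab ρ.2).s
  have hD : ∀ z p q, q ≤ p → D p z → D q z := fun z p q h h' =>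
    ⟨h.trans h'.1, (b2 _ h'.1.2 _ h.2).1 h'.2⟩
  have hy := named_pad hD
  have key : ∀ η < kk, ∀ q ≤ π, ∃ r ≤ q,
      ((Sem r fun w => w.pr η 1 ∈ x w) ∧ η ∈ (lab r.2).x) ∨
        ((Sem r fun w => w.pr η 1 ∉ x w) ∧ ∀ ρ ≤ r, η ∉ (lab ρ.2).x) := fun η hη q hq => by
    obtain ⟨c, c1, -, c2⟩ := dense_D q.2 0 (kk_succ hη)
    have c3 : ((q.1, c) : PC) ≤ q := ⟨le_rfl, c1⟩
    obtain ⟨r, c4, z, -, c5⟩ := htot _ (c3.trans (hq.trans b0)) _ (kk_succ hη)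
    have c6 : η < η + 1 := Order.lt_add_one_iff.2 le_rfl
    have c7 : ∀ ρ ≤ r, η ∈ z ↔ η ∈ (lab ρ.2).x := fun ρ hρ => by
      have := Set.ext_iff.1 (b4 ρ (hρ.trans (c4.trans (c3.trans hq))) _
        (c2.trans (hρ.trans c4).2.c.α) z (hA _ _ _ _ hρ c5)) η
      exact (and_congr_left_iff.1 this) c6
    refine ⟨r, c4.trans c3, ?_⟩
    by_cases e : η ∈ z
    · exact Or.inl ⟨(c5 η c6).imp' fun w h => h.1 e, (c7 r le_rfl).1 e⟩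
    · exact Or.inr ⟨(c5 η c6).imp' fun w h h' => e (h.2 h'), fun ρ hρ h => e ((c7 ρ hρ).2 h)⟩
  have below : ∀ ρ ≤ π, ∀ u ∈ ρ.2.L, (Sem ρ fun w => Live w (pad w D) u) → u ≤ lab ρ.2 :=
    fun ρ hρ u hu h => b3 _ hρ.2 u hu fun z hz => by
      obtain ⟨r, c1, c2⟩ := frc_of_sem (hD z) ((live_sem h hz).imp
        ((ev_base'.and (ev_const z)).mono fun w c c' =>
          ((pr_mem_coll c.1 ((c.1.2.2 z).1 c.2).1 ((c.1.2.2 z).1 c.2).2).1 c').resolve_right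
            fun e => (ρ.2.good.bd u hu z hz).2.1.ne' e.2.1))
      exact ⟨r.2, c1.2, c2.2⟩
  refine ⟨π, b0.trans a1, ?_⟩
  filter_upwards [ev_base', ev_generic, hy.ev_mem, ev_fun fun ρ : PC => lab ρ.2,
    ev_all fun η : O => ev_dense_has fun r : PC =>
      ((Sem r fun w => w.pr η 1 ∈ x w) ∧ η ∈ (lab r.2).x) ∨
        ((Sem r fun w => w.pr η 1 ∉ x w) ∧ ∀ ρ ≤ r, η ∉ (lab ρ.2).x),
    ev_all fun η : O => ev_sem fun w => w.pr η 1 ∈ x w,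
    ev_all fun η : O => ev_sem fun w => w.pr η 1 ∉ x w,
    ev_all fun u => ev_forced (measurable_Live hy u)] with w c1 c2 c3 c4 c5 c6 c7 c8 c9 _
  refine ⟨pad w D, ZFSet.mem_sep.2 ⟨ZFSet.mem_funs.2 (isFunc_pad c1 c2 hD (fun ρ z h => ?_)
    fun ρ η γ γ' h h' => ρ.2.good.fn _ (b1 _ h.1.2) _ h.2 _ h'.2 rfl), c3⟩, fun η d1 d2 => ?_⟩
  · have e1 := ρ.2.good.bd _ (b1 _ h.1.2) z h.2
    have e2 := (ρ.2.good.rk _ (b1 _ h.1.2)).trans_lt ρ.2.c.α_lt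
    exact ⟨e1.1.trans e2, e1.2.2.trans e2⟩
  obtain ⟨r, e1, e2, e3 | e3⟩ := c5 η d1 π c9 (key η d2)
  · exact iff_of_true (c6 η d1 r (w.has_of_mem e1) e3.1) ⟨_, c4 r (c2.mem r e1),
      ⟨⟨r, e1, b1 _ e2.2⟩, fun z g1 g2 => w.mem_coll.2 ⟨z, g1, Or.inl ⟨r, e1, e2, g2⟩, rfl⟩⟩, e3.2⟩
  · refine iff_of_false (c7 η d1 r (w.has_of_mem e1) e3.1) ?_
    rintro ⟨u, g1, g2, g3⟩
    obtain ⟨s, g4, g5⟩ := c8 u g1 g2
    obtain ⟨s', g6, g7⟩ := g2.1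
    obtain ⟨v, h1, h2, h3⟩ := c2.dir s g4 s' g6
    obtain ⟨ρ, -, h4, h5⟩ := c2.dir r e1 v h1
    rw [(below ρ (h4.trans e2) u ((h5.trans h3).2.L.sub g7) (g5.mono (h5.trans h2))).2.2] at g3
    exact e3.2 ρ h4 g3.1

theorem ev_Fv_onto : ∀ᶠ w in gen PC, ∀ x ∈ branches w.M (w.ord kk) (w.treeG Cond.c),
    ∃ y ∈ baire w.M (w.ord kk), Fv w y = x := by
  filter_upwards [ev_base', ev_branch_level, ev_all_named (Φ := fun x w =>
    (∀ β : O, w.In β → β < kk → ∃ z : Set O, w.In z ∧ (w.Frc fun p => z ∈ p.2.c.t) ∧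
      ∀ η, w.In η → η < β → (η ∈ z ↔ w.pr η 1 ∈ x)) →
    ∃ y ∈ baire w.M (w.ord kk), ∀ η, w.In η → η < kk →
      (w.pr η 1 ∈ x ↔ ∃ u : Lab, w.In u ∧ Live w y u ∧ η ∈ u.x)) fun x hx => ev_preimage hx]
    with w a1 a2 a3 x hx
  obtain ⟨b1, b2⟩ := ZFSet.mem_sep.1 (ZFSet.mem_sep.1 hx).1
  obtain ⟨y, c1, c2⟩ := a3 x b2 (a2 x hx).2
  exact ⟨y, c1, eq_chi a1 (ZFSet.mem_funs.1 b1) (a2 x hx).1 c2⟩

/-- the map -/
noncomputable def Fmap (w : World PC) : ZFSet.{0} :=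
  w.coll (fun E : Set (PC × O × O) => ZFSet.IsFunc (w.ord kk) (w.ord kk) (w.rv E))
    fun E => ZFSet.pair (w.rv E) (Fv w (w.rv E))

theorem named_Fmap : Named Fmap :=
  named_coll (fun E => (named_rv E).pair (named_Fv (named_rv E))) fun E =>
    measurable_isFunc (named_ord kk) (named_ord kk) (named_rv E)

theorem ev_image : ∀ᶠ w in gen PC, ∃ T, Kurepa w.M (w.ord ω₁) (w.ord kk) w.ordTop T ∧
    ∃ f ∈ w.M, ZFSet.IsFunc (baire w.M (w.ord kk)) (branches w.M (w.ord kk) T) f ∧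
      Cont (w.ord kk) f ∧ ∀ y ∈ branches w.M (w.ord kk) T, ∃ x, ZFSet.pair x y ∈ f := by
  filter_upwards [ev_kurepaG mono_c (fun q η _ h => dense_D q η h) fun q _ _ h => dense_ne q h,
    named_Fmap.ev_mem, ev_code kk kk, ev_agree, ev_branch, ev_Fv_onto,
    ev_all fun E : Set (PC × O × O) => (named_rv E).ev_mem] with w a1 a2 a3 a4 a5 a6 a7
  have h1 : ∀ z, z ∈ Fmap w ↔ ∃ x ∈ baire w.M (w.ord kk), ZFSet.pair x (Fv w x) = z := fun z => by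
    refine w.mem_coll.trans ⟨?_, ?_⟩
    · rintro ⟨E, b1, b2, rfl⟩
      exact ⟨_, ZFSet.mem_sep.2 ⟨ZFSet.mem_funs.2 b2, a7 E b1⟩, rfl⟩
    · rintro ⟨x, hx, rfl⟩
      obtain ⟨b1, b2⟩ := ZFSet.mem_sep.1 hx
      obtain ⟨E, b3, rfl⟩ := a3 x b2 (ZFSet.mem_funs.1 b1)
      exact ⟨E, b3, ZFSet.mem_funs.1 b1, rfl⟩
  have h2 : ∀ x y, ZFSet.pair x y ∈ Fmap w → Fv w x = y := fun x y h => by
    obtain ⟨x', -, e⟩ := (h1 _).1 h
    obtain ⟨rfl, e'⟩ := ZFSet.pair_inj.1 e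
    exact e'
  refine ⟨_, a1, _, a2, ⟨fun z hz => ?_, fun x hx => ⟨_, (h1 _).2 ⟨x, hx, rfl⟩,
    fun y hy => (h2 x y hy).symm⟩⟩, fun x y h α hα => ⟨α, hα, fun x' y' h' H => ?_⟩,
    fun y hy => ?_⟩
  · obtain ⟨x, hx, rfl⟩ := (h1 z).1 hz
    exact ZFSet.pair_mem_prod.2
      ⟨hx, a5 x (ZFSet.mem_sep.1 hx).2 (ZFSet.mem_funs.1 (ZFSet.mem_sep.1 hx).1)⟩
  · rw [← h2 x y h, ← h2 x' y' h']
    exact a4 α hα x x' H
  · obtain ⟨x, hx, rfl⟩ := a6 y hy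
    exact ⟨x, (h1 _).2 ⟨x, hx, rfl⟩⟩

end Pool.Agent.P.MP_a5be26_lc.Sep

end
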